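import Pool.Agent.V5helper60.HW.Tower

/-!
# One step of the tower
-/

set_option autoImplicit false

namespace Pool.Agent.V5helper60.HW

open IntermediateField

section
variable {K Ω : Type} [Field K] [NumberField K] [Field Ω] [Algebra K Ω]

/-- a property of the finite extensions of `K`, for the subfields of `Ω` -/
def OfType (QT : ∀ (F : Type) [Field F] [NumberField F] [Algebra K F], Prop)
    (F : IntermediateField K Ω) : Prop := ∃ _ : NumberField F, QT F

theorem step_of [Normal K Ω] (QT : ∀ (F : Type) [Field F] [NumberField F] [Algebra K F], Prop)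
    (P : ∀ (G : Type) [Group G], Prop)
    (hiso : ∀ (F : Type) [Field F] [NumberField F] [Algebra K F] (F' : Type) [Field F']
      [NumberField F'] [Algebra K F'], (F ≃ₐ[K] F') → QT F → QT F')
    (hinj : ∀ (G G' : Type) [Group G] [Group G'] [Finite G'] (f : G →* G'),
      Function.Injective f → P G' → P G)
    (hker : ∀ (Γ A B : Type) [Group Γ] [Group A] [Group B] (f : Γ →* A) (g : Γ →* B),
      Function.Surjective f → Function.Surjective g → f.ker ≤ g.ker → P A → P B)
    (hind : ∀ (F : Type) [Field F] [NumberField F] [Algebra K F] (L : Type) [Field L]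
      [NumberField L] [Algebra F L] [IsGalois F L] [Algebra K L] [IsScalarTower K F L],
      (∀ H : Subgroup Gal(L/F), P H → QT (IntermediateField.fixedField H)) → QT F)
    (F L : IntermediateField K Ω) (hFL : F ≤ L) [hL : FiniteDimensional K L] [hN : Normal K L]
    (hF : ¬ OfType QT F) :
    ∃ F', F ≤ F' ∧ F' ≤ L ∧ ¬ OfType QT F' ∧ P (img F' L) := by
  have hCZ : CharZero Ω := charZero_of_injective_algebraMap (algebraMap K Ω).injective
  have hFfin : FiniteDimensional K F := by
    exact FiniteDimensional.of_injective (IntermediateField.inclusion hFL).toLinearMap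
      (IntermediateField.inclusion hFL).injective
  have hNF : NumberField F := NumberField.of_module_finite K F
  have hNL : NumberField L := NumberField.of_module_finite K L
  set L' : IntermediateField F Ω := IntermediateField.extendScalars hFL with hL'
  -- the same field
  let eL : L ≃ₐ[K] L' := AlgEquiv.refl
  have hfL' : Module.Finite K L' := Module.Finite.equiv eL.toLinearEquiv
  have hNL' : NumberField L' := NumberField.of_module_finite K L'
  have hnKL : Normal K L' := Normal.of_algEquiv eL
  have hnFL : Normal F L' := Normal.tower_top_of_normal K F L'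
  have hfFL : FiniteDimensional F L' := Module.Finite.of_restrictScalars_finite K F L'
  have hgal : IsGalois F L' := ⟨⟩
  have hcon : ∃ H : Subgroup Gal(L'/F), P H ∧ ¬ QT (IntermediateField.fixedField H) := by
    by_contra hcon
    push Not at hcon
    exact hF ⟨hNF, hind F L' hcon⟩
  obtain ⟨H, hPH, hQH⟩ := hcon
  set X : IntermediateField F L' := IntermediateField.fixedField H with hX
  let F' : IntermediateField K Ω := (IntermediateField.lift X).restrictScalars K
  have hF'F : F ≤ F' := by
    intro x hx
    exact (IntermediateField.lift X).algebraMap_mem ⟨x, hx⟩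
  have hF'L : F' ≤ L := by
    intro x hx
    exact IntermediateField.lift_le X hx
  refine ⟨F', hF'F, hF'L, ?_, ?_⟩
  · rintro ⟨hn, hq⟩
    apply hQH
    let e : F' ≃ₐ[K] X := ((IntermediateField.liftAlgEquiv X).restrictScalars K).symm
    exact hiso F' X e hq
  · -- the restriction to `L'` of the automorphisms over `F'`
    have hle : F'.fixingSubgroup ≤ F.fixingSubgroup := IntermediateField.fixingSubgroup_le hF'F
    have hFΩ : Normal F Ω := Normal.tower_top_of_normal K F Ω
    let ψ : F'.fixingSubgroup →* Gal(L'/F) :=
      ((AlgEquiv.restrictNormalHom L').comp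
        (IntermediateField.fixingSubgroupEquiv F).toMonoidHom).comp (Subgroup.inclusion hle)
    have hψ : ∀ (σ : F'.fixingSubgroup) (x : L'), (ψ σ x : Ω) = (σ : Ω ≃ₐ[K] Ω) x := by
      intro σ x
      exact AlgEquiv.restrictNormalHom_apply L'
        (IntermediateField.fixingSubgroupEquiv F (Subgroup.inclusion hle σ)) x
    have hmem : ∀ σ, ψ σ ∈ H := by
      intro σ
      rw [← IntermediateField.fixingSubgroup_fixedField H, ← hX, IntermediateField.mem_fixingSubgroup_iff]
      intro x hx
      apply Subtype.ext
      rw [hψ]
      have h1 : (x : Ω) ∈ F' := (IntermediateField.mem_lift x).2 hx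
      exact σ.2 ⟨x, h1⟩
    let φ : F'.fixingSubgroup →* H := ψ.codRestrict H hmem
    have hPr : P φ.range := hinj φ.range H φ.range.subtype (Subgroup.subtype_injective _) hPH
    refine hker F'.fixingSubgroup φ.range (img F' L) φ.rangeRestrict (rst F' L)
      φ.rangeRestrict_surjective (rst_surjective _ _) ?_ hPr
    intro σ hσ
    rw [mem_ker_rst]
    intro x hx
    have h1 : φ σ = 1 := by
      have := congrArg Subtype.val hσ
      exact this
    have h2 : ψ σ = 1 := congrArg Subtype.val h1
    have h3 := hψ σ ⟨x, hx⟩
    rw [h2] at h3
    exact h3.symm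

end

end Pool.Agent.V5helper60.HW
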