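import Pool.Agent.V5helper60.HW.Grp

/-!
# Groups that are hyperelementary for two primes are cyclic
-/

set_option autoImplicit false

namespace Pool.Agent.V5helper60.HW

section
variable {G : Type*} [Group G] [Finite G]

omit [Finite G] in
theorem mem_gen {x y : G} (hcop : (orderOf x).Coprime (orderOf y)) (hc : Commute x y) :
    x ∈ Subgroup.zpowers (x * y) := by
  have h1 := Nat.gcd_eq_gcd_ab (orderOf y) (orderOf x)
  rw [hcop.symm] at h1
  refine ⟨(orderOf y : ℤ) * (orderOf y).gcdA (orderOf x), ?_⟩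
  simp only
  rw [hc.mul_zpow]
  have h2 : y ^ ((orderOf y : ℤ) * (orderOf y).gcdA (orderOf x)) = 1 := by
    rw [zpow_mul, zpow_natCast, pow_orderOf_eq_one, one_zpow]
  have h3 : x ^ ((orderOf x : ℤ) * (orderOf y).gcdB (orderOf x)) = 1 := by
    rw [zpow_mul, zpow_natCast, pow_orderOf_eq_one, one_zpow]
  rw [h2, mul_one]
  calc x ^ ((orderOf y : ℤ) * (orderOf y).gcdA (orderOf x)) =
      x ^ ((orderOf y : ℤ) * (orderOf y).gcdA (orderOf x)) *
        x ^ ((orderOf x : ℤ) * (orderOf y).gcdB (orderOf x)) := by rw [h3, mul_one]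
    _ = x ^ ((1 : ℕ) : ℤ) := by rw [← zpow_add, ← h1]
    _ = x := by simp

omit [Finite G] in
/-- an element of order prime to `n` is a power of its `n`-th power -/
theorem mem_of_pow_mem {H : Subgroup G} {x : G} {n : ℕ} (hcop : (orderOf x).Coprime n)
    (h : x ^ n ∈ H) : x ∈ H := by
  have h1 := Nat.gcd_eq_gcd_ab (orderOf x) n
  rw [hcop] at h1
  have h2 : x = (x ^ n) ^ ((orderOf x).gcdB n) := by
    calc x = x ^ ((1 : ℕ) : ℤ) := by simp
      _ = x ^ ((orderOf x : ℤ) * (orderOf x).gcdA n + (n : ℤ) * (orderOf x).gcdB n) := by rw [h1]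
      _ = (x ^ n) ^ ((orderOf x).gcdB n) := by
        rw [zpow_add, zpow_mul, zpow_mul, zpow_natCast, zpow_natCast, pow_orderOf_eq_one, one_zpow,
          one_mul]
  rw [h2]
  exact H.zpow_mem h _

theorem cyclic_of_two {l l' : ℕ} (hl : l.Prime) (hl' : l'.Prime) (hne : l ≠ l') (h : Hyp l G)
    (h' : Hyp l' G) : IsCyclic G := by
  obtain ⟨c, hc1, hc2, hc3⟩ := h
  obtain ⟨c', hc1', hc2', hc3'⟩ := h'
  have hpos : orderOf c' ≠ 0 := (orderOf_pos c').ne'
  obtain ⟨a, m, hm, hn⟩ := Nat.exists_eq_pow_mul_and_not_dvd hpos l hl.ne_one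
  have hm0 : m ≠ 0 := by
    rintro rfl
    exact hm (dvd_zero l)
  set x := c' ^ m with hx
  have hordx : orderOf x ∣ l ^ a := by
    apply orderOf_dvd_of_pow_eq_one
    rw [hx, ← pow_mul, mul_comm, ← hn, pow_orderOf_eq_one]
  have hnx : (Subgroup.zpowers x).Normal := by
    constructor
    rintro _ ⟨i, rfl⟩ g
    simp only
    rw [← conj_zpow]
    refine Subgroup.zpow_mem _ ?_ i
    rw [hx, ← conj_pow]
    obtain ⟨j, hj⟩ := hc2' g
    simp only at hj
    have hcm : (c' ^ j) ^ m = (c' ^ m) ^ j := by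
      rw [← zpow_natCast, ← zpow_natCast, ← zpow_mul, ← zpow_mul, mul_comm]
    rw [← hj, hcm]
    exact Subgroup.zpow_mem _ (Subgroup.mem_zpowers _) j
  have hnc : (Subgroup.zpowers c).Normal := by
    constructor
    rintro _ ⟨i, rfl⟩ g
    simp only
    rw [← conj_zpow]
    exact Subgroup.zpow_mem _ (hc2 g) i
  have hcop : (orderOf x).Coprime (orderOf c) := by
    refine Nat.Coprime.coprime_dvd_left hordx ?_
    exact Nat.Coprime.pow_left a hc1.symm
  have hdis : Disjoint (Subgroup.zpowers x) (Subgroup.zpowers c) := by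
    apply Subgroup.disjoint_of_coprime_natCard
    rw [Nat.card_zpowers, Nat.card_zpowers]
    exact hcop
  have hcomm : Commute x c := Subgroup.commute_of_normal_of_disjoint _ _ hnx hnc hdis x c
    (Subgroup.mem_zpowers x) (Subgroup.mem_zpowers c)
  have hxz : x ∈ Subgroup.zpowers (x * c) := mem_gen hcop hcomm
  have hcz : c ∈ Subgroup.zpowers (x * c) := by
    rw [hcomm.eq]
    exact mem_gen hcop.symm hcomm.symm
  refine ⟨x * c, fun g => ?_⟩
  obtain ⟨b, r, hr, hN⟩ := Nat.exists_eq_pow_mul_and_not_dvd (orderOf_pos g).ne' l hl.ne_one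
  have hcopr : (l ^ b).Coprime r := Nat.Coprime.pow_left b ((Nat.Prime.coprime_iff_not_dvd hl).2 hr)
  -- the part of order prime to `l`
  have h1 : g ^ l ^ b ∈ Subgroup.zpowers c := by
    obtain ⟨k, hk⟩ := hc3 (g ^ l ^ b)
    refine mem_of_pow_mem ?_ hk
    have h2 : orderOf (g ^ l ^ b) ∣ r := by
      apply orderOf_dvd_of_pow_eq_one
      rw [← pow_mul, ← hN, pow_orderOf_eq_one]
    exact Nat.Coprime.coprime_dvd_left h2
      (Nat.Coprime.pow_right k ((Nat.Prime.coprime_iff_not_dvd hl).2 hr).symm)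
  -- the part of `l`-power order
  have h2 : g ^ r ∈ Subgroup.zpowers x := by
    have h3 : orderOf (g ^ r) ∣ l ^ b := by
      apply orderOf_dvd_of_pow_eq_one
      rw [← pow_mul, mul_comm, ← hN, pow_orderOf_eq_one]
    have h4 : g ^ r ∈ Subgroup.zpowers c' := by
      obtain ⟨k, hk⟩ := hc3' (g ^ r)
      refine mem_of_pow_mem ?_ hk
      exact Nat.Coprime.coprime_dvd_left h3
        (Nat.Coprime.pow b k ((Nat.coprime_primes hl hl').2 hne))
    obtain ⟨i, hi⟩ := h4
    simp only at hi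
    have h5 : (c' ^ i) ^ l ^ b = 1 := by
      rw [hi]
      exact orderOf_dvd_iff_pow_eq_one.1 h3
    rw [← zpow_natCast, ← zpow_mul, ← orderOf_dvd_iff_zpow_eq_one, hn] at h5
    have h6 : (m : ℤ) ∣ i := by
      have h7 : (m : ℤ) ∣ i * ((l ^ b : ℕ) : ℤ) :=
        (Int.natCast_dvd_natCast.2 (Dvd.intro_left _ rfl)).trans h5
      refine IsCoprime.dvd_of_dvd_mul_right ?_ h7
      rw [Nat.isCoprime_iff_coprime]
      exact (Nat.Coprime.pow_left b ((Nat.Prime.coprime_iff_not_dvd hl).2 hm)).symm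
    obtain ⟨j, hj⟩ := h6
    refine ⟨j, ?_⟩
    simp only
    rw [hx, ← zpow_natCast, ← zpow_mul, ← hj, hi]
  have h3 := Nat.gcd_eq_gcd_ab (l ^ b) r
  rw [hcopr] at h3
  have h4 : g = (g ^ l ^ b) ^ ((l ^ b).gcdA r) * (g ^ r) ^ ((l ^ b).gcdB r) := by
    calc g = g ^ ((1 : ℕ) : ℤ) := by simp
      _ = g ^ (((l ^ b : ℕ) : ℤ) * (l ^ b).gcdA r + (r : ℤ) * (l ^ b).gcdB r) := by rw [h3]
      _ = _ := by rw [zpow_add, zpow_mul, zpow_mul, zpow_natCast, zpow_natCast]
  rw [h4]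
  have h5 : Subgroup.zpowers c ≤ Subgroup.zpowers (x * c) := Subgroup.zpowers_le.2 hcz
  have h6 : Subgroup.zpowers x ≤ Subgroup.zpowers (x * c) := Subgroup.zpowers_le.2 hxz
  exact Subgroup.mul_mem _ (Subgroup.zpow_mem _ (h5 h1) _) (Subgroup.zpow_mem _ (h6 h2) _)

end

end Pool.Agent.V5helper60.HW
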