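import Pool.Agent.V5helper60.HW.Crit
import Pool.Agent.V5helper60.HW.Step
import Pool.Agent.V5helper60.HW.Uniq

/-!
# The Galois groups over the large finite subextensions of a critical extension
-/

set_option autoImplicit false

namespace Pool.Agent.V5helper60.HW

open IntermediateField

section
variable {K Ω : Type} [Field K] [Field Ω] [Algebra K Ω]

/-- the compositum of `F` and `L` over `F` -/
noncomputable abbrev EL (F L : IntermediateField K Ω) : IntermediateField F Ω :=
  IntermediateField.extendScalars (le_sup_left : F ≤ F ⊔ L)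

theorem mem_EL {F L : IntermediateField K Ω} {x : Ω} : x ∈ EL F L ↔ x ∈ F ⊔ L := Iff.rfl

theorem normal_EL [Normal K Ω] (F L : IntermediateField K Ω) [hL : Normal K L] :
    Normal F (EL F L) := by
  have hFΩ : Normal F Ω := Normal.tower_top_of_normal K F Ω
  rw [IntermediateField.normal_iff_forall_map_le']
  intro σ x hx
  obtain ⟨y, hy, rfl⟩ := hx
  let τ : Ω ≃ₐ[K] Ω := σ.restrictScalars K
  have h1 : (F ⊔ L).map (τ : Ω →ₐ[K] Ω) ≤ F ⊔ L := by
    rw [IntermediateField.map_sup]
    apply sup_le_sup
    · rintro _ ⟨z, hz, rfl⟩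
      have h2 : τ z = z := σ.commutes ⟨z, hz⟩
      change τ z ∈ F
      rw [h2]
      exact hz
    · exact (IntermediateField.normal_iff_forall_map_le'.1 hL) τ
  exact h1 ⟨y, hy, rfl⟩

/-- restriction of the automorphisms over `F` to the compositum -/
noncomputable def psi [Normal K Ω] (F L : IntermediateField K Ω) [Normal F (EL F L)] :
    F.fixingSubgroup →* Gal(EL F L/F) :=
  (AlgEquiv.restrictNormalHom (EL F L)).comp (IntermediateField.fixingSubgroupEquiv F).toMonoidHom

theorem psi_apply [Normal K Ω] (F L : IntermediateField K Ω) [Normal F (EL F L)]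
    (σ : F.fixingSubgroup) (x : EL F L) : (psi F L σ x : Ω) = (σ : Ω ≃ₐ[K] Ω) x :=
  AlgEquiv.restrictNormalHom_apply (EL F L) (IntermediateField.fixingSubgroupEquiv F σ) x

theorem psi_surjective [Normal K Ω] (F L : IntermediateField K Ω) [Normal F (EL F L)] :
    Function.Surjective (psi F L) := by
  have hFΩ : Normal F Ω := Normal.tower_top_of_normal K F Ω
  exact (AlgEquiv.restrictNormalHom_surjective Ω).comp
    (IntermediateField.fixingSubgroupEquiv F).surjective

theorem ker_psi [Normal K Ω] (F L : IntermediateField K Ω) [Normal K L] [Normal F (EL F L)] :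
    (psi F L).ker = (rst F L).ker := by
  ext σ
  rw [mem_ker_rst, MonoidHom.mem_ker]
  constructor
  · intro h x hx
    have h1 := psi_apply F L σ ⟨x, (le_sup_right : L ≤ F ⊔ L) hx⟩
    rw [h] at h1
    exact h1.symm
  · intro h
    apply AlgEquiv.ext
    intro x
    apply Subtype.ext
    rw [psi_apply]
    have h1 : (σ : Ω ≃ₐ[K] Ω) ∈ (F ⊔ L).fixingSubgroup := by
      rw [IntermediateField.fixingSubgroup_sup]
      exact ⟨σ.2, fun y => h y y.2⟩
    exact h1 x

/-- the intermediate fields of the compositum as subfields of `Ω` -/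
noncomputable def down {F L : IntermediateField K Ω} (X : IntermediateField F (EL F L)) :
    IntermediateField K Ω := (IntermediateField.lift X).restrictScalars K

theorem le_down {F L : IntermediateField K Ω} (X : IntermediateField F (EL F L)) : F ≤ down X := by
  intro x hx
  exact (IntermediateField.lift X).algebraMap_mem ⟨x, hx⟩

theorem down_le {F L : IntermediateField K Ω} (X : IntermediateField F (EL F L)) :
    down X ≤ F ⊔ L := by
  intro x hx
  exact IntermediateField.lift_le X hx

/-- the same field -/
noncomputable def downEquiv {F L : IntermediateField K Ω} (X : IntermediateField F (EL F L)) :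
    down X ≃ₐ[K] X := ((IntermediateField.liftAlgEquiv X).restrictScalars K).symm

theorem lt_down {F L : IntermediateField K Ω} {X : IntermediateField F (EL F L)} (hX : X ≠ ⊥) :
    F < down X := by
  refine lt_of_le_of_ne (le_down X) fun h => hX ?_
  rw [eq_bot_iff]
  intro x hx
  have h1 : (x : Ω) ∈ down X := (IntermediateField.mem_lift x).2 hx
  rw [← h] at h1
  rw [IntermediateField.mem_bot]
  exact ⟨⟨x, h1⟩, Subtype.ext rfl⟩

end

section
variable {K Ω : Type} [Field K] [NumberField K] [Field Ω] [Algebra K Ω]

/-- everything about the compositum -/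
theorem inst_EL [Normal K Ω] (F L : IntermediateField K Ω) [hL : FiniteDimensional K L]
    [hN : Normal K L] [hF : FiniteDimensional K F] :
    NumberField F ∧ NumberField (EL F L) ∧ IsGalois F (EL F L) := by
  have hCZ : CharZero Ω := charZero_of_injective_algebraMap (algebraMap K Ω).injective
  have hNF : NumberField F := NumberField.of_module_finite K F
  have hfS : FiniteDimensional K (F ⊔ L : IntermediateField K Ω) :=
    IntermediateField.finiteDimensional_sup F L
  let eL : (F ⊔ L : IntermediateField K Ω) ≃ₐ[K] EL F L := AlgEquiv.refl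
  have hfL' : Module.Finite K (EL F L) := Module.Finite.equiv eL.toLinearEquiv
  have hNL' : NumberField (EL F L) := NumberField.of_module_finite K (EL F L)
  have hnFL : Normal F (EL F L) := normal_EL F L
  exact ⟨hNF, hNL', ⟨⟩⟩

theorem step_crit [Normal K Ω] (QT : ∀ (F : Type) [Field F] [NumberField F] [Algebra K F], Prop)
    (P : ∀ (G : Type) [Group G], Prop)
    (hiso : ∀ (F : Type) [Field F] [NumberField F] [Algebra K F] (F' : Type) [Field F']
      [NumberField F'] [Algebra K F'], (F ≃ₐ[K] F') → QT F → QT F')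
    (hinj : ∀ (G G' : Type) [Group G] [Group G'] [Finite G'] (f : G →* G'),
      Function.Injective f → P G' → P G)
    (hker : ∀ (Γ A B : Type) [Group Γ] [Group A] [Group B] (f : Γ →* A) (g : Γ →* B),
      Function.Surjective f → Function.Surjective g → f.ker ≤ g.ker → P A → P B)
    (hind : ∀ (F : Type) [Field F] [NumberField F] [Algebra K F] (L : Type) [Field L]
      [NumberField L] [Algebra F L] [IsGalois F L] [Algebra K L] [IsScalarTower K F L],
      (∀ H : Subgroup Gal(L/F), P H → QT (IntermediateField.fixedField H)) → QT F)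
    (F L : IntermediateField K Ω) [hL : FiniteDimensional K L] [hN : Normal K L]
    [hFf : FiniteDimensional K F] (hF : ¬ OfType QT F)
    (hcrit : ∀ X, F < X → X ≤ F ⊔ L → OfType QT X) : P (img F L) := by
  obtain ⟨hNF, hNE, hgal⟩ := inst_EL F L
  have hnor : Normal F (EL F L) := hgal.to_normal
  have hcon : ∃ H : Subgroup Gal(EL F L/F), P H ∧ ¬ QT (IntermediateField.fixedField H) := by
    by_contra hcon
    push Not at hcon
    exact hF ⟨hNF, hind F (EL F L) hcon⟩
  obtain ⟨H, hPH, hQH⟩ := hcon
  have hbot : IntermediateField.fixedField H = ⊥ := by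
    by_contra hne
    obtain ⟨hn, hq⟩ := hcrit (down (IntermediateField.fixedField H)) (lt_down hne) (down_le _)
    exact hQH (hiso _ _ (downEquiv (IntermediateField.fixedField H)) hq)
  have htop : H = ⊤ := by
    rw [← IntermediateField.fixingSubgroup_fixedField H, hbot]
    exact IntermediateField.fixingSubgroup_bot
  subst htop
  let eT : Gal(EL F L/F) ≃* (⊤ : Subgroup Gal(EL F L/F)) := Subgroup.topEquiv.symm
  have h1 : P Gal(EL F L/F) := hinj _ _ eT.toMonoidHom eT.injective hPH
  exact hker _ _ _ (psi F L) (rst F L) (psi_surjective F L) (rst_surjective F L)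
    (ker_psi F L).le h1

omit [NumberField K] in
/-- the images over the subextensions that contain `M ⊓ L` -/
theorem img_le_of_inf [IsGalois K Ω] {M F L : IntermediateField K Ω} [Normal K L]
    [FiniteDimensional K L] (h : M ⊓ L ≤ F) : img F L ≤ img M L := by
  rintro _ ⟨τ, hτ, rfl⟩
  obtain ⟨τ', hτ', he⟩ := exists_lift (A := M) (B := F) (L := L) h hτ
  refine ⟨τ', hτ', ?_⟩
  apply AlgEquiv.ext
  intro x
  apply Subtype.ext
  rw [AlgEquiv.restrictNormalHom_apply, AlgEquiv.restrictNormalHom_apply]
  exact he x x.2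

omit [NumberField K] in
theorem img_eq_of_inf [IsGalois K Ω] {M F L : IntermediateField K Ω} [Normal K L]
    [FiniteDimensional K L] (h : M ⊓ L ≤ F) (hF : F ≤ M) : img F L = img M L :=
  le_antisymm (img_le_of_inf h) (Subgroup.map_mono (IntermediateField.fixingSubgroup_le hF))

/-- **The groups over a critical extension.** -/
theorem crit_img [Normal K Ω] (QT : ∀ (F : Type) [Field F] [NumberField F] [Algebra K F], Prop)
    (P : ∀ (G : Type) [Group G], Prop)
    (hiso : ∀ (F : Type) [Field F] [NumberField F] [Algebra K F] (F' : Type) [Field F']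
      [NumberField F'] [Algebra K F'], (F ≃ₐ[K] F') → QT F → QT F')
    (hinj : ∀ (G G' : Type) [Group G] [Group G'] [Finite G'] (f : G →* G'),
      Function.Injective f → P G' → P G)
    (hker : ∀ (Γ A B : Type) [Group Γ] [Group A] [Group B] (f : Γ →* A) (g : Γ →* B),
      Function.Surjective f → Function.Surjective g → f.ker ≤ g.ker → P A → P B)
    (hind : ∀ (F : Type) [Field F] [NumberField F] [Algebra K F] (L : Type) [Field L]
      [NumberField L] [Algebra F L] [IsGalois F L] [Algebra K L] [IsScalarTower K F L],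
      (∀ H : Subgroup Gal(L/F), P H → QT (IntermediateField.fixedField H)) → QT F)
    {M : IntermediateField K Ω} (hM1 : Pers (OfType QT) M)
    (hM2 : ∀ N, M < N → ¬ Pers (OfType QT) N)
    (L : IntermediateField K Ω) [hL : FiniteDimensional K L] [hN : Normal K L] : P (img M L) := by
  have hCZ : CharZero Ω := charZero_of_injective_algebraMap (algebraMap K Ω).injective
  have hGal : IsGalois K Ω := ⟨⟩
  obtain ⟨F₁, h1, h2, -, h4⟩ := crit_ext hM2 L
  obtain ⟨F, h5, h6, h7, h8⟩ := hM1 F₁ h1 h2
  have h9 : P (img F L) := step_crit QT P hiso hinj hker hind F L h8 (h4 F h5 h6 h7)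
  exact hinj _ _ (imgLe h6 L) (imgLe_injective _ _) h9

end

section
variable {K Ω : Type} [Field K] [Field Ω] [Algebra K Ω]

/-- a finite normal extension that contains given elements -/
theorem exists_normal_fin [Normal K Ω] (s : Set Ω) (hs : s.Finite) :
    ∃ L : IntermediateField K Ω, Normal K L ∧ FiniteDimensional K L ∧ ∀ x ∈ s, x ∈ L := by
  have halg : Algebra.IsAlgebraic K Ω := Normal.toIsAlgebraic
  have hfin : Finite s := hs.to_subtype
  refine ⟨⨆ x : s, normalClosure K K⟮(x : Ω)⟯ Ω, ?_, ?_, ?_⟩
  · exact IntermediateField.normal_iSup K Ω _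
  · have h : ∀ x : s, FiniteDimensional K (normalClosure K K⟮(x : Ω)⟯ Ω) := by
      intro x
      have : FiniteDimensional K K⟮(x : Ω)⟯ :=
        IntermediateField.adjoin.finiteDimensional (Algebra.IsIntegral.isIntegral _)
      exact normalClosure.is_finiteDimensional K _ Ω
    exact IntermediateField.finiteDimensional_iSup_of_finite
  · intro x hx
    have h1 : x ∈ normalClosure K K⟮x⟯ Ω :=
      (IntermediateField.le_normalClosure K⟮x⟯) (IntermediateField.mem_adjoin_simple_self K x)
    exact (le_iSup (fun y : s => normalClosure K K⟮(y : Ω)⟯ Ω) ⟨x, hx⟩) h1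

/-- the finite Galois extensions of `M` -/
theorem gal_over [Normal K Ω] (M : IntermediateField K Ω) (N : IntermediateField M Ω)
    [FiniteDimensional M N] [IsGalois M N] :
    ∃ (L : IntermediateField K Ω) (_ : Normal K L) (_ : FiniteDimensional K L)
      (g : M.fixingSubgroup →* (N ≃ₐ[M] N)), Function.Surjective g ∧ (rst M L).ker ≤ g.ker := by
  have hNM : Normal M Ω := Normal.tower_top_of_normal K M Ω
  let b := Module.finBasis M N
  obtain ⟨L, hL1, hL2, hL3⟩ := exists_normal_fin (K := K) (Set.range fun i => (b i : Ω))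
    (Set.finite_range _)
  have hb : ∀ i, (b i : Ω) ∈ L := fun i => hL3 _ ⟨i, rfl⟩
  let g : M.fixingSubgroup →* (N ≃ₐ[M] N) :=
    (AlgEquiv.restrictNormalHom N).comp (IntermediateField.fixingSubgroupEquiv M).toMonoidHom
  have hg : ∀ (σ : M.fixingSubgroup) (x : N), (g σ x : Ω) = (σ : Ω ≃ₐ[K] Ω) x := by
    intro σ x
    exact AlgEquiv.restrictNormalHom_apply N (IntermediateField.fixingSubgroupEquiv M σ) x
  refine ⟨L, hL1, hL2, g, ?_, ?_⟩
  · exact (AlgEquiv.restrictNormalHom_surjective Ω).comp
      (IntermediateField.fixingSubgroupEquiv M).surjective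
  · intro σ hσ
    rw [mem_ker_rst] at hσ
    rw [MonoidHom.mem_ker]
    apply AlgEquiv.ext
    intro x
    have h1 : ∀ i, g σ (b i) = b i := fun i => Subtype.ext (by rw [hg, hσ _ (hb i)])
    have h2 : (g σ).toLinearMap = LinearMap.id := b.ext fun i => h1 i
    exact LinearMap.congr_fun h2 x

/-- one prime number for all the layers -/
theorem one_prime {M : IntermediateField K Ω}
    (h : ∀ (L : IntermediateField K Ω) [Normal K L] [FiniteDimensional K L],
      ∃ l : ℕ, l.Prime ∧ Hyp l (img M L)) :
    ∃ l : ℕ, l.Prime ∧ ∀ (L : IntermediateField K Ω) [Normal K L] [FiniteDimensional K L],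
      Hyp l (img M L) := by
  by_cases hc : ∀ (L : IntermediateField K Ω) [Normal K L] [FiniteDimensional K L],
      IsCyclic (img M L)
  · exact ⟨2, Nat.prime_two, fun L _ _ => Hyp.of_cyclic Nat.prime_two (hc L)⟩
  · push Not at hc
    obtain ⟨L₀, hN₀, hF₀, hnc⟩ := hc
    obtain ⟨l, hl, hl0⟩ := h L₀
    refine ⟨l, hl, fun L hN hF => ?_⟩
    have hN' : Normal K (L ⊔ L₀ : IntermediateField K Ω) := inferInstance
    have hF' : FiniteDimensional K (L ⊔ L₀ : IntermediateField K Ω) :=
      IntermediateField.finiteDimensional_sup L L₀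
    obtain ⟨l', hl', hl1⟩ := h (L ⊔ L₀)
    have h1 : Hyp l' (img M L₀) := img_quot (le_sup_right : L₀ ≤ L ⊔ L₀) hl1
    have h2 : l = l' := by
      by_contra hne
      exact hnc (cyclic_of_two hl hl' hne hl0 h1)
    subst h2
    exact img_quot (le_sup_left : L ≤ L ⊔ L₀) hl1

end

end Pool.Agent.V5helper60.HW
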