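import Pool.Agent.V5helper60.HW.Sigma
import Pool.Agent.V5helper60.HW.Crit2

/-!
# Extensions with cyclic Galois groups are fixed fields of one automorphism
-/

set_option autoImplicit false

namespace Pool.Agent.V5helper60.HW

open IntermediateField

section
variable {K Ω : Type} [Field K] [CharZero K] [Field Ω] [Algebra K Ω] [Normal K Ω]

theorem exists_sigma' [Countable Ω] {M : IntermediateField K Ω}
    (hcyc : ∀ (L : IntermediateField K Ω) [Normal K L] [FiniteDimensional K L],
      IsCyclic (img M L)) : ∃ σ : Ω ≃ₐ[K] Ω, ∀ x, x ∈ M ↔ σ x = x := by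
  have hCZ : CharZero Ω := charZero_of_injective_algebraMap (algebraMap K Ω).injective
  have hGal : IsGalois K Ω := ⟨⟩
  obtain ⟨L, hmono, hN, hfd, hx⟩ := exists_layers (K := K) (Ω := Ω)
  have hmono' : Monotone fun n => M ⊓ L n := fun a b hab => inf_le_inf_left M (hmono hab)
  obtain ⟨σ, hσ, -⟩ := exists_sigma hmono hx (F := fun n => M ⊓ L n) hmono' (fun n => by
    rw [img_eq_of_inf (M := M) le_rfl inf_le_left]
    exact hcyc (L n))
  refine ⟨σ, fun x => ?_⟩
  rw [← hσ x]
  constructor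
  · intro h
    obtain ⟨n, hn⟩ := hx x
    exact ⟨n, h, hn⟩
  · rintro ⟨n, hn⟩
    exact hn.1

omit [CharZero K] [Normal K Ω] in
/-- the automorphisms over the subfields that contain `M ⊓ L` -/
theorem pow_on_layer {M : IntermediateField K Ω} {σ : Ω ≃ₐ[K] Ω} (hσ : ∀ x, x ∈ M ↔ σ x = x)
    (L : IntermediateField K Ω) [Normal K L] [FiniteDimensional K L] {τ : Ω ≃ₐ[K] Ω}
    (hτ : τ ∈ (M ⊓ L).fixingSubgroup) : ∃ i : ℤ, ∀ x ∈ L, τ x = (σ ^ i) x := by
  rw [← zpowers_restrict, ← IntermediateField.fixingSubgroup_fixedField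
    (Subgroup.zpowers (AlgEquiv.restrictNormalHom L σ)), IntermediateField.mem_fixingSubgroup_iff]
  intro y hy
  apply Subtype.ext
  rw [AlgEquiv.restrictNormalHom_apply]
  have h1 := hy ⟨AlgEquiv.restrictNormalHom L σ, Subgroup.mem_zpowers _⟩
  have h2 := AlgEquiv.restrictNormalHom_apply L σ y
  have h3 : σ (y : Ω) = y := by
    rw [← h2]
    exact congrArg Subtype.val h1
  exact hτ ⟨y, (hσ y).2 h3, y.2⟩

end

end Pool.Agent.V5helper60.HW
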