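import Pool.Agent.V5helper60.HW.Grp
import Pool.Agent.R333.BR.Ord
import Pool.Agent.R433.MD.GalRel

/-!
# Continuation of the L-series and subfields with hyperelementary or cyclic groups
-/

set_option autoImplicit false

namespace Pool.Agent.V5helper60.HW

open NumberField IsDedekindDomain
open Pool.Agent.H341R2.EC Pool.Agent.R433.MD

theorem hyp_of_isHyper {G : Type} [Group G] [Finite G] {p : ℕ} {H : Subgroup G}
    (h : IsHyper p H) : Hyp p H := by
  obtain ⟨C, hC, hcyc, hcop, hnorm, hpow⟩ := h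
  obtain ⟨⟨c, hc⟩, hgen⟩ := hcyc
  have hmem : ∀ (x : H), (x : G) ∈ C → x ∈ Subgroup.zpowers (⟨c, hC hc⟩ : H) := by
    intro x hx
    obtain ⟨i, hi⟩ := hgen ⟨x, hx⟩
    refine ⟨i, Subtype.ext ?_⟩
    have h1 : (c : G) ^ i = x := by
      have h2 := congrArg Subtype.val hi
      simpa using h2
    simpa using h1
  refine ⟨⟨c, hC hc⟩, ?_, fun g => ?_, fun g => ?_⟩
  · refine Nat.Coprime.coprime_dvd_left ?_ hcop
    rw [Subgroup.orderOf_mk]
    have h1 := orderOf_dvd_natCard (⟨c, hc⟩ : C)
    rwa [Subgroup.orderOf_mk] at h1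
  · exact hmem _ (hnorm g g.2 c hc)
  · obtain ⟨k, hk⟩ := hpow g g.2
    exact ⟨k, hmem _ hk⟩

theorem isHyper_of_hyp {G : Type} [Group G] [Finite G] {p : ℕ} {H : Subgroup G}
    (h : Hyp p H) : IsHyper p H := by
  obtain ⟨c, hc1, hc2, hc3⟩ := h
  have hmem : ∀ x : H, x ∈ Subgroup.zpowers c → (x : G) ∈ Subgroup.zpowers (c : G) := by
    rintro _ ⟨i, rfl⟩
    exact ⟨i, by simp⟩
  refine ⟨Subgroup.zpowers (c : G), ?_, inferInstance, ?_, fun h hh x hx => ?_, fun h hh => ?_⟩
  · rw [Subgroup.zpowers_le]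
    exact c.2
  · rw [Nat.card_zpowers, Subgroup.orderOf_coe]
    exact hc1
  · obtain ⟨i, rfl⟩ := hx
    have h1 : (⟨h, hh⟩ * c * ⟨h, hh⟩⁻¹ : H) ^ i ∈ Subgroup.zpowers c :=
      Subgroup.zpow_mem _ (hc2 ⟨h, hh⟩) i
    have h2 := hmem _ h1
    rw [conj_zpow] at h2
    exact h2
  · obtain ⟨k, hk⟩ := hc3 ⟨h, hh⟩
    exact ⟨k, hmem _ hk⟩

section
variable {K : Type} [Field K] [NumberField K]

/-- isomorphic fields -/
theorem cont_congr {F F' : Type} [Field F] [NumberField F] [Algebra K F] [Field F']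
    [NumberField F'] [Algebra K F'] (e : F ≃ₐ[K] F') {E : WeierstrassCurve K} (hE : E.IsElliptic)
    {U : Set ℂ} {m : ℕ} (h : Cont (E.map (algebraMap K F)) U m) :
    Cont (E.map (algebraMap K F')) U m := by
  obtain ⟨V, hV, Λ, hΛ, hL⟩ := h
  obtain ⟨V', hV'⟩ := exists_minimal (E.map (algebraMap K F')) inferInstance
  let X : Bool → Ext K := fun i => match i with
    | true => ⟨F'⟩
    | false => ⟨F⟩
  let a : Bool → ℕ := fun i => match i with
    | true => 1
    | false => 0
  let b : Bool → ℕ := fun i => match i with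
    | true => 0
    | false => 1
  let W : ∀ i, HeightOneSpectrum (𝓞 (X i).F) → WeierstrassCurve (𝓞 (X i).F) := fun i => match i with
    | true => V'
    | false => V
  obtain ⟨R, hR, hRL⟩ := relation (fun i => (X i).F) a b (D := (1 : 𝓞 K)) one_ne_zero (by
    intro k _ _ φ _
    have h1 : nh (X true).F φ = nh (X false).F φ := (Pool.Agent.R333.BR.nh_congr e φ).symm
    rw [Fintype.sum_bool, Fintype.sum_bool, h1]
    simp only [a, b]
    ring) E hE W (by
    rintro (_ | _)
    · exact hV
    · exact hV')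
  refine ⟨V', hV', fun s => R s ^ m * Λ s, ?_, fun s hs => ?_⟩
  · have h1 : MeromorphicOn R U := fun x _ => hR x trivial
    exact (h1.fun_pow m).fun_mul hΛ
  · obtain ⟨-, h2⟩ := hRL s hs
    rw [Fintype.prod_bool, Fintype.prod_bool] at h2
    have h3 : LL V' s ^ 1 * LL V s ^ 0 = R s * (LL V' s ^ 0 * LL V s ^ 1) := h2
    simp only
    rw [pow_one, pow_zero, mul_one, pow_zero, one_mul, pow_one] at h3
    rw [hL s hs, h3, mul_pow]

omit [NumberField K] in
/-- descent from the subfields with a hyperelementary group -/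
theorem cont_hyper {E : WeierstrassCurve K} (hE : E.IsElliptic) {U : Set ℂ} (F : Type) [Field F]
    [NumberField F] [Algebra K F] (L : Type) [Field L] [NumberField L] [Algebra F L] [IsGalois F L]
    [Algebra K L] [IsScalarTower K F L]
    (h : ∀ H : Subgroup Gal(L/F), (∃ p : ℕ, p.Prime ∧ Hyp p H) →
      Cont (E.map (algebraMap K (IntermediateField.fixedField H))) U 1) :
    Cont (E.map (algebraMap K F)) U 1 := by
  obtain ⟨m, hm0, hmP, hm⟩ := gal_hyper F L Set.univ
  have hm1 : m = 1 := by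
    by_contra hne
    obtain ⟨p, hp, hpm⟩ := Nat.exists_prime_and_dvd hne
    exact hmP p trivial hp hpm
  subst hm1
  refine hm (E.map (algebraMap K F)) inferInstance U fun H hH => ?_
  have h1 : (E.map (algebraMap K F)).map (algebraMap F (IntermediateField.fixedField H)) =
      E.map (algebraMap K (IntermediateField.fixedField H)) := by
    rw [WeierstrassCurve.map_map, ← IsScalarTower.algebraMap_eq]
  rw [h1]
  apply h
  rcases hH with hH | ⟨p, -, hp, hH⟩
  · exact ⟨2, Nat.prime_two, Hyp.of_cyclic Nat.prime_two hH⟩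
  · exact ⟨p, hp, hyp_of_isHyper hH⟩

/-- some power of the L-series has a continuation -/
def ContP (E : WeierstrassCurve K) (U : Set ℂ) : Prop := ∃ m : ℕ, m ≠ 0 ∧ Cont E U m

end

section
variable {K L : Type} [Field K] [NumberField K] [Field L] [NumberField L] [Algebra K L]
  [IsGalois K L]

theorem contP_rel (S : Finset (IntermediateField K L)) {m : ℕ} (hm : m ≠ 0)
    (n : IntermediateField K L → ℤ)
    (h : ∀ g : Gal(L/K), ∑ F ∈ S, n F * fx F.fixingSubgroup g = m)
    (E : WeierstrassCurve K) (hE : E.IsElliptic) (U : Set ℂ)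
    (hS : ∀ F ∈ S, ContP (E.map (algebraMap K F)) U) : ContP E U := by
  classical
  obtain ⟨V0, hV0⟩ := exists_minimal E hE
  have hVF : ∀ F : IntermediateField K L, ∃ V : HeightOneSpectrum (𝓞 F) → WeierstrassCurve (𝓞 F),
      (∀ w, IsMinAt (E.map (algebraMap K F)) w (V w)) ∧ (F ∈ S → ∃ k : ℕ, k ≠ 0 ∧ ∃ Λ : ℂ → ℂ,
        MeromorphicOn Λ U ∧ ∀ s : ℂ, 3 / 2 < s.re → Λ s = LL V s ^ k) := by
    intro F
    by_cases hF : F ∈ S
    · obtain ⟨k, hk, V, hV, Λ, hΛ, hL⟩ := hS F hF
      exact ⟨V, hV, fun _ => ⟨k, hk, Λ, hΛ, hL⟩⟩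
    · obtain ⟨V, hV⟩ := exists_minimal (E.map (algebraMap K F)) inferInstance
      exact ⟨V, hV, fun h => absurd h hF⟩
  choose VF hVF hΛ using hVF
  obtain ⟨R, hR, hRL⟩ := gal_rel S m n h E hE V0 hV0 VF hVF
  choose k hk Λ hΛm hΛL using hΛ
  set N : ℕ := ∏ F : S, k F.1 F.2 with hN
  have hN0 : N ≠ 0 := Finset.prod_ne_zero_iff.2 fun F _ => hk F.1 F.2
  have hdvd : ∀ F : S, k F.1 F.2 ∣ N := fun F =>
    Finset.dvd_prod_of_mem (fun F : S => k F.1 F.2) (Finset.mem_univ F)
  choose q hq using hdvd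
  refine ⟨m * N, mul_ne_zero hm hN0, V0, hV0,
    fun s => R s ^ N * ∏ F : S, (Λ F.1 F.2 s ^ q F) ^ n F.1, ?_, fun s hs => ?_⟩
  · have h1 : MeromorphicOn R U := fun x _ => hR x trivial
    exact (h1.fun_pow N).fun_mul
      (MeromorphicOn.fun_prod fun F _ => ((hΛm F.1 F.2).fun_pow _).fun_zpow _)
  · have h2 : ∏ F : S, (Λ F.1 F.2 s ^ q F) ^ n F.1 = (∏ F : S, LL (VF F.1) s ^ n F.1) ^ N := by
      rw [← Finset.prod_pow]
      refine Finset.prod_congr rfl fun F _ => ?_
      rw [hΛL F.1 F.2 s hs, ← pow_mul, ← hq F, ← zpow_natCast, ← zpow_natCast, ← zpow_mul,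
        ← zpow_mul, mul_comm]
    rw [pow_mul, (hRL s hs).2, mul_pow, ← Finset.prod_coe_sort S (fun F => LL (VF F) s ^ n F), ← h2]

end

section
variable {K : Type} [Field K] [NumberField K]

omit [NumberField K] in
/-- descent of powers from the subfields with a cyclic group -/
theorem contP_cyclic {E : WeierstrassCurve K} {U : Set ℂ} (F : Type) [Field F]
    [NumberField F] [Algebra K F] (hE : E.IsElliptic) (L : Type) [Field L] [NumberField L]
    [Algebra F L] [IsGalois F L] [Algebra K L] [IsScalarTower K F L]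
    (h : ∀ H : Subgroup Gal(L/F), IsCyclic H →
      ContP (E.map (algebraMap K (IntermediateField.fixedField H))) U) :
    ContP (E.map (algebraMap K F)) U := by
  obtain ⟨m, S, n, hm0, -, hS, hsum⟩ := gal_unit (K := F) (L := L)
    {X : IntermediateField F L | IsCyclic X.fixingSubgroup}
    (by
      intro X hX X' _
      have hle : (X ⊔ X').fixingSubgroup ≤ X.fixingSubgroup := by
        rw [IntermediateField.fixingSubgroup_sup]
        exact inf_le_left
      have hX' : IsCyclic X.fixingSubgroup := hX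
      exact isCyclic_of_injective (Subgroup.inclusion hle) (Subgroup.inclusion_injective hle))
    (by
      intro X hX σ
      have e : (X.map (σ : L →ₐ[F] L)).fixingSubgroup =
          X.fixingSubgroup.map (MulAut.conj σ).toMonoidHom := IsGalois.map_fixingSubgroup X σ
      have hX' : IsCyclic X.fixingSubgroup := hX
      rw [Set.mem_ofPred_eq, e]
      let e' := X.fixingSubgroup.equivMapOfInjective (MulAut.conj σ).toMonoidHom
        (MulAut.conj σ).injective
      exact isCyclic_of_surjective e'.toMonoidHom e'.surjective) ∅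
    (by
      intro g
      have e : (IntermediateField.fixedField (Subgroup.zpowers g)).fixingSubgroup =
        Subgroup.zpowers g := IntermediateField.fixingSubgroup_fixedField _
      refine ⟨IntermediateField.fixedField (Subgroup.zpowers g), ?_, ?_⟩
      · rw [Set.mem_ofPred_eq, e]
        infer_instance
      · have h1 := fx_eq_emb (IntermediateField.fixedField (Subgroup.zpowers g)) g
        intro h
        rw [h, e, fx, Nat.cast_zero, Nat.cast_eq_zero, Nat.card_eq_zero] at h1
        rcases h1 with h1 | h1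
        · refine h1.false ⟨((1 : Gal(L/F)) : Gal(L/F) ⧸ Subgroup.zpowers g), ?_⟩
          change ((g * 1 : Gal(L/F)) : Gal(L/F) ⧸ Subgroup.zpowers g) = _
          rw [QuotientGroup.eq, mul_one, mul_one]
          exact Subgroup.inv_mem _ (Subgroup.mem_zpowers g)
        · exact h1.not_finite inferInstance)
    (by
      intro g p hp
      exact absurd hp (Set.notMem_empty p))
  refine contP_rel S hm0 n hsum (E.map (algebraMap K F)) inferInstance U fun X hX => ?_
  have h1 := h X.fixingSubgroup (hS X hX)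
  rw [IsGalois.fixedField_fixingSubgroup] at h1
  rw [WeierstrassCurve.map_map, ← IsScalarTower.algebraMap_eq]
  exact h1

end

end Pool.Agent.V5helper60.HW
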