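import Pool.Agent.V5helper60.HW.Tower

/-!
# Critical extensions

`Q` is a property of the finite subextensions of `Ω / K`.  An extension `M` is critical if `Q` fails
for arbitrarily large finite subextensions of `M` and holds for all large finite subextensions of every
larger extension.
-/

set_option autoImplicit false

namespace Pool.Agent.V5helper60.HW

open IntermediateField

section
variable {K Ω : Type} [Field K] [Field Ω] [Algebra K Ω]

/-- `Q` fails for arbitrarily large finite subextensions of `M` -/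
def Pers (Q : IntermediateField K Ω → Prop) (M : IntermediateField K Ω) : Prop :=
  ∀ F₀ : IntermediateField K Ω, F₀ ≤ M → FiniteDimensional K F₀ →
    ∃ F : IntermediateField K Ω, F₀ ≤ F ∧ F ≤ M ∧ FiniteDimensional K F ∧ ¬ Q F

/-- finite subextensions are compact -/
theorem fin_le {F : IntermediateField K Ω} (hF : FiniteDimensional K F) {ι : Type*} [Nonempty ι]
    {t : ι → IntermediateField K Ω} (ht : Directed (· ≤ ·) t) (h : F ≤ ⨆ i, t i) :
    ∃ i, F ≤ t i := by
  classical
  let b := Module.finBasis K F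
  have h1 : ∀ j, ∃ i, (b j : Ω) ∈ t i := by
    intro j
    have h2 : (b j : Ω) ∈ (⨆ i, t i : IntermediateField K Ω) := h (b j).2
    rw [← SetLike.mem_coe, IntermediateField.coe_iSup_of_directed ht, Set.mem_iUnion] at h2
    exact h2
  choose i hi using h1
  obtain ⟨k, hk⟩ := ht.finite_le i
  refine ⟨k, fun x hx => ?_⟩
  have h3 : (⟨x, hx⟩ : F) = ∑ j, b.repr ⟨x, hx⟩ j • b j := (b.sum_repr _).symm
  have h4 : x = ∑ j, b.repr ⟨x, hx⟩ j • (b j : Ω) := by
    have := congrArg (Subtype.val : F → Ω) h3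
    rw [IntermediateField.coe_sum] at this
    simpa using this
  rw [h4]
  exact sum_mem fun j _ => (t k).smul_mem (hk j (hi j))

/-- existence of critical extensions -/
theorem exists_crit (Q : IntermediateField K Ω → Prop) (h : ¬ Q ⊥) :
    ∃ M : IntermediateField K Ω, Pers Q M ∧ ∀ N, M < N → ¬ Pers Q N := by
  obtain ⟨M, hM⟩ := zorn_le₀ {M : IntermediateField K Ω | Pers Q M} (by
    intro c hc hchain
    rcases c.eq_empty_or_nonempty with rfl | hne
    · refine ⟨⊥, ?_, fun z hz => absurd hz (Set.notMem_empty z)⟩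
      intro F₀ hF₀ hfin
      have h1 : F₀ = ⊥ := le_bot_iff.1 hF₀
      subst h1
      exact ⟨⊥, le_rfl, le_rfl, hfin, h⟩
    · refine ⟨sSup c, ?_, fun z hz => le_sSup hz⟩
      intro F₀ hF₀ hfin
      have hne' : Nonempty c := hne.to_subtype
      rw [sSup_eq_iSup'] at hF₀
      obtain ⟨⟨M, hM⟩, hle⟩ := fin_le hfin (hchain.directed) hF₀
      obtain ⟨F, h1, h2, h3, h4⟩ := hc hM F₀ hle hfin
      exact ⟨F, h1, h2.trans (le_sSup hM), h3, h4⟩)
  refine ⟨M, hM.1, fun N hN hP => ?_⟩
  exact hN.not_ge (hM.2 hP hN.le)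

end

section
variable {K Ω : Type} [Field K] [Field Ω] [Algebra K Ω] [IsGalois K Ω]

/-- lifting of automorphisms of a normal subfield -/
theorem exists_lift {A B L : IntermediateField K Ω} [Normal K L] [FiniteDimensional K L]
    (h : A ⊓ L ≤ B) {τ : Ω ≃ₐ[K] Ω} (hτ : τ ∈ B.fixingSubgroup) :
    ∃ τ' ∈ A.fixingSubgroup, ∀ x ∈ L, τ' x = τ x := by
  have hG : IsGalois K L := IsGalois.mk
  have h1 : AlgEquiv.restrictNormalHom L τ ∈ img A L := by
    rw [← IntermediateField.fixingSubgroup_fixedField (img A L),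
      IntermediateField.mem_fixingSubgroup_iff]
    intro y hy
    apply Subtype.ext
    rw [AlgEquiv.restrictNormalHom_apply]
    have h2 : (y : Ω) ∈ A := by
      rw [← InfiniteGalois.fixedField_fixingSubgroup A, IntermediateField.mem_fixedField_iff]
      intro σ hσ
      have h3 := hy ⟨AlgEquiv.restrictNormalHom L σ, σ, hσ, rfl⟩
      have h4 := AlgEquiv.restrictNormalHom_apply L σ y
      rw [← h4]
      exact congrArg Subtype.val h3
    exact hτ ⟨y, h ⟨h2, y.2⟩⟩
  obtain ⟨τ', hτ', he⟩ := h1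
  refine ⟨τ', hτ', fun x hx => ?_⟩
  have h2 := AlgEquiv.restrictNormalHom_apply L τ' ⟨x, hx⟩
  have h3 := AlgEquiv.restrictNormalHom_apply L τ ⟨x, hx⟩
  rw [he] at h2
  exact h2.symm.trans h3

omit [IsGalois K Ω] in
theorem agree_sup {F L : IntermediateField K Ω} {τ τ' : Ω ≃ₐ[K] Ω} (h1 : τ ∈ F.fixingSubgroup)
    (h2 : τ' ∈ F.fixingSubgroup) (h3 : ∀ x ∈ L, τ' x = τ x) {x : Ω} (hx : x ∈ F ⊔ L) :
    τ' x = τ x := by
  have h4 : τ⁻¹ * τ' ∈ (F ⊔ L).fixingSubgroup := by
    rw [IntermediateField.fixingSubgroup_sup]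
    refine Subgroup.mem_inf.2
      ⟨F.fixingSubgroup.mul_mem (F.fixingSubgroup.inv_mem h1) h2, ?_⟩
    rintro ⟨y, hy⟩
    change τ⁻¹ (τ' y) = y
    rw [h3 y hy]
    exact AlgEquiv.symm_apply_apply τ y
  have h5 : (τ⁻¹ * τ') x = x := h4 ⟨x, hx⟩
  have h6 := congrArg τ h5
  change τ (τ⁻¹ (τ' x)) = τ x at h6
  rw [← h6]
  exact (AlgEquiv.apply_symm_apply τ (τ' x)).symm

/-- the intermediate fields of `F ⊔ L` and `F` -/
theorem eq_sup {F L X : IntermediateField K Ω} [Normal K L] [FiniteDimensional K L] (h1 : F ≤ X)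
    (h2 : X ≤ F ⊔ L) : X = F ⊔ (X ⊓ L) := by
  apply le_antisymm
  · intro x hx
    rw [← InfiniteGalois.fixedField_fixingSubgroup (F ⊔ (X ⊓ L)),
      IntermediateField.mem_fixedField_iff]
    intro τ hτ
    obtain ⟨τ', hτ', he⟩ := exists_lift (A := X) (B := F ⊔ (X ⊓ L)) (L := L) le_sup_right hτ
    have h3 : τ ∈ F.fixingSubgroup := IntermediateField.fixingSubgroup_le le_sup_left hτ
    have h4 : τ' ∈ F.fixingSubgroup := IntermediateField.fixingSubgroup_le h1 hτ'
    rw [← agree_sup h3 h4 he (h2 hx)]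
    exact hτ' ⟨x, hx⟩
  · exact sup_le h1 inf_le_left

/-- the subfields of `F ⊔ L` inside `M` -/
theorem le_of_inter {M F L X : IntermediateField K Ω} [Normal K L] [FiniteDimensional K L]
    (hFM : F ≤ M) (hML : M ⊓ L ≤ F) (h2 : X ≤ F ⊔ L) (h3 : X ≤ M) : X ≤ F := by
  intro x hx
  rw [← InfiniteGalois.fixedField_fixingSubgroup F, IntermediateField.mem_fixedField_iff]
  intro τ hτ
  obtain ⟨τ', hτ', he⟩ := exists_lift (A := M) (B := F) (L := L) hML hτ
  have h4 : τ' ∈ F.fixingSubgroup := IntermediateField.fixingSubgroup_le hFM hτ'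
  rw [← agree_sup hτ h4 he (h2 hx)]
  exact hτ' ⟨x, h3 hx⟩

/-- finite subextensions of a compositum -/
theorem exists_fin_sup {M Y F : IntermediateField K Ω} (hF : FiniteDimensional K F)
    (h : F ≤ M ⊔ Y) : ∃ F' : IntermediateField K Ω, F' ≤ M ∧ FiniteDimensional K F' ∧ F ≤ F' ⊔ Y := by
  let ι := {F' : IntermediateField K Ω // F' ≤ M ∧ FiniteDimensional K F'}
  have hne : Nonempty ι := ⟨⟨⊥, bot_le, inferInstance⟩⟩
  let t : ι → IntermediateField K Ω := fun i => i.1 ⊔ Y
  have hdir : Directed (· ≤ ·) t := by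
    rintro ⟨A, hA, hA'⟩ ⟨B, hB, hB'⟩
    exact ⟨⟨A ⊔ B, sup_le hA hB, IntermediateField.finiteDimensional_sup A B⟩,
      sup_le_sup_right le_sup_left Y, sup_le_sup_right le_sup_right Y⟩
  have hsup : M ⊔ Y ≤ ⨆ i, t i := by
    apply sup_le
    · intro x hx
      have h1 : FiniteDimensional K K⟮x⟯ :=
        IntermediateField.adjoin.finiteDimensional (Algebra.IsIntegral.isIntegral x)
      have h2 : K⟮x⟯ ≤ M := IntermediateField.adjoin_simple_le_iff.2 hx
      exact (le_sup_left.trans (le_iSup t ⟨K⟮x⟯, h2, h1⟩) : K⟮x⟯ ≤ _)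
        (IntermediateField.mem_adjoin_simple_self K x)
    · exact le_sup_right.trans (le_iSup t ⟨⊥, bot_le, inferInstance⟩)
  obtain ⟨⟨F', h1, h2⟩, h3⟩ := fin_le hF hdir (h.trans hsup)
  exact ⟨F', h1, h2, h3⟩

/-- **The extensions of the large finite subextensions of a critical extension.** -/
theorem crit_ext {Q : IntermediateField K Ω → Prop} {M : IntermediateField K Ω}
    (hM : ∀ N, M < N → ¬ Pers Q N) (L : IntermediateField K Ω) [Normal K L]
    [FiniteDimensional K L] :
    ∃ F₁ : IntermediateField K Ω, F₁ ≤ M ∧ FiniteDimensional K F₁ ∧ M ⊓ L ≤ F₁ ∧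
      ∀ F, F₁ ≤ F → F ≤ M → FiniteDimensional K F → ∀ X, F < X → X ≤ F ⊔ L → Q X := by
  classical
  have hGL : IsGalois K L := IsGalois.mk
  -- the subfields of `L` outside `M`
  have h1 : ∀ Y : IntermediateField K Ω, ∃ F' : IntermediateField K Ω, F' ≤ M ∧
      FiniteDimensional K F' ∧ (Y ≤ L → ¬ Y ≤ M → ∀ X, F' ⊔ Y ≤ X → X ≤ M ⊔ Y →
        FiniteDimensional K X → Q X) := by
    intro Y
    by_cases hY : ¬ Y ≤ M
    · have h2 : M < M ⊔ Y := by
        refine lt_of_le_of_ne le_sup_left fun h => hY ?_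
        rw [h]
        exact le_sup_right
      have h3 := hM _ h2
      unfold Pers at h3
      push Not at h3
      obtain ⟨F₀, h4, h5, h6⟩ := h3
      obtain ⟨F', h7, h8, h9⟩ := exists_fin_sup h5 h4
      exact ⟨F', h7, h8, fun _ _ X h10 h11 h12 => h6 X (h9.trans h10) h11 h12⟩
    · exact ⟨⊥, bot_le, inferInstance, fun _ h => absurd h hY⟩
  choose f hf1 hf2 hf3 using h1
  have hfinI : Finite (IntermediateField K L) := by
    let e := IsGalois.intermediateFieldEquivSubgroup (F := K) (E := L)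
    exact Finite.of_equiv _ e.toEquiv.symm
  let g : IntermediateField K L → IntermediateField K Ω := fun Y => f (IntermediateField.lift Y)
  have hMLfin : FiniteDimensional K (M ⊓ L : IntermediateField K Ω) :=
    FiniteDimensional.of_injective (IntermediateField.inclusion (inf_le_right : M ⊓ L ≤ L)).toLinearMap
      (IntermediateField.inclusion (inf_le_right : M ⊓ L ≤ L)).injective
  have hgfin : FiniteDimensional K (⨆ Y, g Y : IntermediateField K Ω) := by
    have : ∀ Y, FiniteDimensional K (g Y) := fun Y => hf2 _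
    exact IntermediateField.finiteDimensional_iSup_of_finite
  refine ⟨(M ⊓ L) ⊔ ⨆ Y, g Y, ?_, ?_, le_sup_left, ?_⟩
  · exact sup_le inf_le_left (iSup_le fun Y => hf1 _)
  · exact IntermediateField.finiteDimensional_sup _ _
  · intro F h2 h3 h4 X h5 h6
    have hXfin : FiniteDimensional K X := by
      have h7 : FiniteDimensional K (F ⊔ L : IntermediateField K Ω) :=
        IntermediateField.finiteDimensional_sup _ _
      exact FiniteDimensional.of_injective (IntermediateField.inclusion h6).toLinearMap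
        (IntermediateField.inclusion h6).injective
    set Y := X ⊓ L with hY
    have hXY : X = F ⊔ Y := eq_sup h5.le h6
    have hYM : ¬ Y ≤ M := by
      intro h7
      have h8 : X ≤ M := by
        rw [hXY]
        exact sup_le h3 h7
      have h9 := le_of_inter h3 (le_sup_left.trans h2) h6 h8
      exact h5.not_ge h9
    have hYL : Y ≤ L := inf_le_right
    have hlift : IntermediateField.lift (IntermediateField.restrict hYL) = Y :=
      IntermediateField.lift_restrict hYL
    refine hf3 Y hYL hYM X ?_ ?_ hXfin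
    · rw [hXY]
      refine sup_le_sup_right ?_ Y
      refine le_trans ?_ (le_sup_right.trans h2)
      have h7 : g (IntermediateField.restrict hYL) = f Y := by
        change f (IntermediateField.lift (IntermediateField.restrict hYL)) = f Y
        rw [hlift]
      rw [← h7]
      exact le_iSup g (IntermediateField.restrict hYL)
    · rw [hXY]
      exact sup_le_sup_right h3 Y

end

end Pool.Agent.V5helper60.HW
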