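import Pool.Agent.V5helper60.HW.Main

/-!
# The final form of the theorems on towers, and the comparison of the definitions
-/

set_option autoImplicit false

namespace Pool.Agent.V5helper60.HW

open NumberField IsDedekindDomain Pool.Agent.R433.MD Pool.Agent.H341R2.EC

section
variable {K : Type} [Field K] [NumberField K]

/-- all systems of minimal models -/
theorem cont_all {E : WeierstrassCurve K} (hE : E.IsElliptic) {U : Set ℂ} {m : ℕ}
    (h : Cont E U m) (V : HeightOneSpectrum (𝓞 K) → WeierstrassCurve (𝓞 K))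
    (hV : ∀ v, IsMinAt E v (V v)) :
    ∃ Λ : ℂ → ℂ, MeromorphicOn Λ U ∧ ∀ s : ℂ, 3 / 2 < s.re → Λ s = LL V s ^ m := by
  obtain ⟨V', hV', Λ', hΛ', hL'⟩ := h
  obtain ⟨R, hR, hRL⟩ := models_unique hE V V' hV hV'
  refine ⟨fun s => R s ^ m * Λ' s, ?_, fun s hs => ?_⟩
  · have h1 : MeromorphicOn R U := fun x _ => hR x trivial
    exact (h1.fun_pow m).fun_mul hΛ'
  · simp only
    rw [(hRL s hs).2, mul_pow, hL' s hs]

section
variable {Ω : Type} [Field Ω] [Algebra K Ω] (E : WeierstrassCurve K)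

open scoped Classical in
/-- the permutations of the points of order dividing `n` -/
noncomputable def rep (n : ℕ) : (Ω ≃ₐ[K] Ω) →* Equiv.Perm (tor E (Ω := Ω) n) where
  toFun σ :=
    { toFun := fun P => ⟨act E σ P.1, act_mem_tor E σ P.2⟩
      invFun := fun P => ⟨act E σ⁻¹ P.1, act_mem_tor E σ⁻¹ P.2⟩
      left_inv := by
        intro P
        apply Subtype.ext
        change act E σ⁻¹ (act E σ P.1) = P.1
        rw [← act_mul, inv_mul_cancel, act_one]
      right_inv := by
        intro P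
        apply Subtype.ext
        change act E σ (act E σ⁻¹ P.1) = P.1
        rw [← act_mul, mul_inv_cancel, act_one] }
  map_one' := by
    ext P
    exact act_one E P.1
  map_mul' σ τ := by
    ext P
    exact act_mul E σ τ P.1

omit [NumberField K] in
open scoped Classical in
theorem rep_of_rho {n : ℕ} {σ : Ω ≃ₐ[K] Ω} (h : rho E n σ = 1) : rep E n σ = 1 := by
  apply Equiv.ext
  intro P
  exact LinearEquiv.congr_fun h P

end

open scoped Classical in
/-- **The tower of fields without continuation.** -/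
theorem cont_final (E : WeierstrassCurve K) (hE : E.IsElliptic) (U : Set ℂ) (h : ¬ Cont E U 1) :
    ∃ (F : ℕ → IntermediateField K (AlgebraicClosure K)) (l : ℕ), l.Prime ∧ Monotone F ∧
      (∀ n, FiniteDimensional K (F n)) ∧
      (∀ n, ∀ _ : NumberField (F n), ¬ Cont (E.map (algebraMap K (F n))) U 1) ∧
      (∀ (N : IntermediateField (⨆ n, F n : IntermediateField K (AlgebraicClosure K))
          (AlgebraicClosure K))
        [FiniteDimensional (⨆ n, F n : IntermediateField K (AlgebraicClosure K)) N]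
        [IsGalois (⨆ n, F n : IntermediateField K (AlgebraicClosure K)) N],
        Hyp l (N ≃ₐ[(⨆ n, F n : IntermediateField K (AlgebraicClosure K))] N)) ∧
      (∀ N : ℕ, 1 ≤ N → ∃ m : ℕ, ∀ n, m ≤ n →
        Hyp l ((rep E (Ω := AlgebraicClosure K) N).comp (F n).fixingSubgroup.subtype).range) ∧
      ∀ p : ℕ, p.Prime → ∃ m : ℕ, ∀ n, m ≤ n →
        (∃ C : AddSubgroup (Pts E (AlgebraicClosure K)), Nat.card C = p ∧
          ∀ σ ∈ (F n).fixingSubgroup, ∀ P ∈ C, act E σ P ∈ C) ∨
        (∃ F' : IntermediateField K (AlgebraicClosure K), F n ≤ F' ∧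
          Module.finrank K F' ≤ 2 * Module.finrank K (F n) ∧
          ∀ σ ∈ F'.fixingSubgroup, ∀ τ ∈ F'.fixingSubgroup,
            ∀ P ∈ tor E (Ω := AlgebraicClosure K) p,
              act E σ (act E τ P) = act E τ (act E σ P)) := by
  obtain ⟨L, hN, F, l, hl, hmono, hfd, hx, hFm, hFf, hFQ, hHyp⟩ := cont_tower E hE U h
  have hΔ : E.Δ ≠ 0 := E.isUnit_Δ.ne_zero
  refine ⟨F, l, hl, hFm, hFf, fun n hn hc => hFQ n ⟨hn, hc⟩, ?_, ?_, ?_⟩
  · intro N _ _
    exact hyper_union hmono hx hHyp N
  · intro N hN1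
    obtain ⟨m, hm⟩ := tor_layer (Ω := AlgebraicClosure K) E hΔ hN1 hmono hx
    exact ⟨m, fun n hn => hyp_range (rep E N) (fun σ hσ => rep_of_rho E (hm n hn σ hσ)) (hHyp n)⟩
  · intro p hp
    exact tor_tower E hΔ hp hmono hx hFf hl hHyp

end

end Pool.Agent.V5helper60.HW
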