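import Pool.Agent.V5helper60.HW.Fin
import Pool.Agent.V5helper60.HW.Crit2

/-!
# The torsion points over the large finite subextensions of a critical extension
-/

set_option autoImplicit false

namespace Pool.Agent.V5helper60.HW

open IntermediateField

section
variable {K Ω : Type} [Field K] [Field Ω] [Algebra K Ω] (E : WeierstrassCurve K)

theorem act_agree (σ τ : Ω ≃ₐ[K] Ω) {x y : Ω} (h : (E.baseChange Ω).toAffine.Nonsingular x y)
    (hx : σ x = τ x) (hy : σ y = τ y) :
    act E σ (WeierstrassCurve.Affine.Point.some x y h : Pts E Ω) =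
      act E τ (WeierstrassCurve.Affine.Point.some x y h : Pts E Ω) := by
  classical
  unfold act
  rw [WeierstrassCurve.Affine.Point.map_some, WeierstrassCurve.Affine.Point.map_some]
  simp only [WeierstrassCurve.Affine.Point.some.injEq]
  exact ⟨hx, hy⟩

/-- the coordinates of finitely many points -/
theorem pts_field [Normal K Ω] (T : Set (Pts E Ω)) (hT : T.Finite) :
    ∃ (L : IntermediateField K Ω) (_ : Normal K L) (_ : FiniteDimensional K L),
      ∀ σ τ : Ω ≃ₐ[K] Ω, (∀ x ∈ L, σ x = τ x) → ∀ P ∈ T, act E σ P = act E τ P := by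
  classical
  have h1 : ∀ P : Pts E Ω, ∃ s : Set Ω, s.Finite ∧ ∀ σ τ : Ω ≃ₐ[K] Ω, (∀ x ∈ s, σ x = τ x) →
      act E σ P = act E τ P := by
    intro P
    rcases P with _ | ⟨x, y, h⟩
    · exact ⟨∅, Set.finite_empty, fun σ τ _ => (map_zero _).trans (map_zero _).symm⟩
    · exact ⟨{x, y}, Set.toFinite _, fun σ τ hs =>
        act_agree E σ τ h (hs x (Or.inl rfl)) (hs y (Or.inr rfl))⟩
  choose s hs1 hs2 using h1
  obtain ⟨L, hL1, hL2, hL3⟩ := exists_normal_fin (K := K) (⋃ P ∈ T, s P)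
    (hT.biUnion fun P _ => hs1 P)
  refine ⟨L, hL1, hL2, fun σ τ h P hP => hs2 P σ τ fun x hx => h x (hL3 x ?_)⟩
  exact Set.mem_biUnion hP hx

variable [CharZero K] [IsAlgClosed Ω]

open scoped Classical in
/-- the coordinates of the torsion points -/
theorem tor_field [Normal K Ω] (hE : E.Δ ≠ 0) {n : ℕ} (hn : 1 ≤ n) :
    ∃ (L : IntermediateField K Ω) (_ : Normal K L) (_ : FiniteDimensional K L),
      ∀ σ τ : Ω ≃ₐ[K] Ω, (∀ x ∈ L, σ x = τ x) → ∀ P ∈ tor E (Ω := Ω) n, act E σ P = act E τ P := by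
  obtain ⟨h1, -⟩ := tor_finite (Ω := Ω) E hE hn
  exact pts_field E (tor E (Ω := Ω) n : Set (Pts E Ω)) (Set.toFinite _)

omit [CharZero K] [IsAlgClosed Ω] in
open scoped Classical in
theorem rho_of_agree {n : ℕ} {L : IntermediateField K Ω}
    (h : ∀ σ τ : Ω ≃ₐ[K] Ω, (∀ x ∈ L, σ x = τ x) → ∀ P ∈ tor E (Ω := Ω) n, act E σ P = act E τ P)
    {σ : Ω ≃ₐ[K] Ω} (hσ : σ ∈ L.fixingSubgroup) : rho E n σ = 1 := by
  ext P
  have h1 := h σ 1 (fun x hx => hσ ⟨x, hx⟩) P.1 P.2
  rw [act_one] at h1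
  exact h1

open scoped Classical in
/-- the points of order `p` over one field -/
theorem tor_plane (hE : E.Δ ≠ 0) {p : ℕ} (hp : p.Prime) [Normal K Ω]
    {F L : IntermediateField K Ω} [Normal K L] [FiniteDimensional K L]
    (hL : ∀ σ ∈ L.fixingSubgroup, rho E p σ = 1)
    (hfF : FiniteDimensional K F) {l : ℕ} (hl : l.Prime) (hF : Hyp l (img F L)) :
    (∃ C : AddSubgroup (Pts E Ω), Nat.card C = p ∧
        ∀ σ ∈ F.fixingSubgroup, ∀ P ∈ C, act E σ P ∈ C) ∨
      (∃ F' : IntermediateField K Ω, F ≤ F' ∧ FiniteDimensional K F' ∧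
        Module.finrank K F' ≤ 2 * Module.finrank K F ∧
        ∀ σ ∈ F'.fixingSubgroup, ∀ τ ∈ F'.fixingSubgroup, ∀ P ∈ tor E (Ω := Ω) p,
          act E σ (act E τ P) = act E τ (act E σ P)) := by
  have hFp : Fact p.Prime := ⟨hp⟩
  have hCZ : CharZero Ω := charZero_of_injective_algebraMap (algebraMap K Ω).injective
  have hGal : IsGalois K Ω := ⟨⟩
  obtain ⟨hfin, -⟩ := tor_finite (Ω := Ω) E hE hp.one_le
  set Γ := F.fixingSubgroup with hΓ
  let ρ : Γ →* (tor E (Ω := Ω) p ≃ₗ[ZMod p] tor E (Ω := Ω) p) := (rho E p).comp Γ.subtype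
  have hρ : Hyp l ρ.range := hyp_range (rho E p) hL hF
  rcases hyper_plane hl (tor_finrank E hE) ρ hρ with ⟨W, hW, hW'⟩ | ⟨A, hA0, hA2, hker, hAc⟩
  · left
    refine ⟨W.toAddSubgroup.map (tor E (Ω := Ω) p).subtype, ?_, ?_⟩
    · have h1 : Nat.card W = p := by
        rw [Module.natCard_eq_pow_finrank (K := ZMod p), Nat.card_zmod, hW, pow_one]
      have h2 : Nat.card (W.toAddSubgroup.map (tor E (Ω := Ω) p).subtype) =
          Nat.card W.toAddSubgroup :=
        (Nat.card_congr (W.toAddSubgroup.equivMapOfInjective _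
          (AddSubgroup.subtype_injective _)).toEquiv).symm
      rw [h2]
      exact h1
    · rintro σ hσ _ ⟨P, hP, rfl⟩
      exact ⟨ρ ⟨σ, hσ⟩ P, hW' ⟨σ, hσ⟩ P hP, rfl⟩
  · right
    let B : Subgroup (Ω ≃ₐ[K] Ω) := A.map Γ.subtype
    have hLB : L.fixingSubgroup ⊓ Γ ≤ B := by
      rintro σ ⟨h1, h2⟩
      refine ⟨⟨σ, h2⟩, hker ?_, rfl⟩
      exact hL σ h1
    have hopen : IsOpen (B : Set (Ω ≃ₐ[K] Ω)) := by
      have h1 : IsOpen (L.fixingSubgroup : Set (Ω ≃ₐ[K] Ω)) :=
        IntermediateField.fixingSubgroup_isOpen _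
      have h2 : IsOpen (Γ : Set (Ω ≃ₐ[K] Ω)) := IntermediateField.fixingSubgroup_isOpen _
      exact Subgroup.isOpen_mono hLB (h1.inter h2)
    have hclosed : IsClosed (B : Set (Ω ≃ₐ[K] Ω)) := Subgroup.isClosed_of_isOpen _ hopen
    set F' : IntermediateField K Ω := IntermediateField.fixedField B with hF'
    have hfix : F'.fixingSubgroup = B :=
      InfiniteGalois.fixingSubgroup_fixedField ⟨B, hclosed⟩
    have hBΓ : B ≤ Γ := by
      rintro _ ⟨σ, -, rfl⟩
      exact σ.2
    have hFL : F' ≤ F ⊔ L := by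
      have h1 : (F ⊔ L).fixingSubgroup ≤ B := by
        rw [IntermediateField.fixingSubgroup_sup, inf_comm]
        exact hLB
      have h2 := IntermediateField.fixedField_antitone (F := K) (E := Ω) h1
      have h3 := InfiniteGalois.fixedField_fixingSubgroup (k := K) (K := Ω) (F ⊔ L)
      rw [h3] at h2
      exact h2
    have hfFL : FiniteDimensional K (F ⊔ L : IntermediateField K Ω) :=
      IntermediateField.finiteDimensional_sup F L
    refine ⟨F', ?_, ?_, ?_, ?_⟩
    · intro x hx σ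
      have h1 : (σ : Ω ≃ₐ[K] Ω) ∈ Γ := hBΓ σ.2
      exact h1 ⟨x, hx⟩
    · exact FiniteDimensional.of_injective (IntermediateField.inclusion hFL).toLinearMap
        (IntermediateField.inclusion hFL).injective
    · rw [IntermediateField.finrank_eq_fixingSubgroup_index, hfix,
        IntermediateField.finrank_eq_fixingSubgroup_index, ← hΓ]
      have h1 : B.relIndex Γ = A.index := by
        change (B.subgroupOf Γ).index = A.index
        congr 1
        exact Subgroup.comap_map_eq_self_of_injective (Subgroup.subtype_injective Γ) A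
      rw [← Subgroup.relIndex_mul_index hBΓ, h1]
      exact Nat.mul_le_mul_right _ hA2
    · intro σ hσ τ hτ P hP
      rw [hfix] at hσ hτ
      obtain ⟨σ', hσ', rfl⟩ := hσ
      obtain ⟨τ', hτ', rfl⟩ := hτ
      exact congrArg Subtype.val (hAc σ' hσ' τ' hτ' ⟨P, hP⟩)

omit [CharZero K] [IsAlgClosed Ω] in
open scoped Classical in
/-- an automorphism which is trivial on `E[n]` has an order dividing `n ^ i` on `E[n ^ (i + 1)]` -/
theorem pow_trivial {n : ℕ} {σ : Ω ≃ₐ[K] Ω} (h : ∀ P ∈ tor E (Ω := Ω) n, act E σ P = P) (i : ℕ) :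
    ∀ P ∈ tor E (Ω := Ω) (n ^ (i + 1)), act E (σ ^ n ^ i) P = P := by
  induction i with
  | zero =>
    intro P hP
    rw [pow_zero, pow_one]
    rw [zero_add, pow_one] at hP
    exact h P hP
  | succ i ih =>
    intro P hP
    set τ := σ ^ n ^ i with hτ
    have h1 : act E τ P - P ∈ tor E (Ω := Ω) n := by
      rw [mem_tor, nsmul_sub, ← map_nsmul]
      have h2 : n • P ∈ tor E (Ω := Ω) (n ^ (i + 1)) := by
        rw [mem_tor, ← mul_nsmul', ← pow_succ]
        exact hP
      rw [ih _ h2, sub_self]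
    have h3 : ∀ Q ∈ tor E (Ω := Ω) n, act E τ Q = Q := by
      intro Q hQ
      have h4 : ∀ m : ℕ, act E (σ ^ m) Q = Q := by
        intro m
        induction m with
        | zero => rw [pow_zero, act_one]
        | succ m ihm => rw [pow_succ, act_mul, h Q hQ, ihm]
      exact h4 _
    have h4 : ∀ m : ℕ, act E (τ ^ m) P = P + m • (act E τ P - P) := by
      intro m
      induction m with
      | zero => rw [pow_zero, act_one, zero_nsmul, add_zero]
      | succ m ihm =>
        rw [pow_succ', act_mul, ihm, map_add, map_nsmul, h3 _ h1, succ_nsmul]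
        abel
    have h5 := h4 n
    rw [(mem_tor E).1 h1, add_zero] at h5
    rw [pow_succ, pow_mul]
    exact h5

omit [CharZero K] [IsAlgClosed Ω] in
open scoped Classical in
/-- the automorphisms which are trivial on `E[n]` act on `E[n ^ j]` through a cyclic group -/
theorem cyclic_on_layer {l n j : ℕ} (hln : n.Coprime l)
    {F : IntermediateField K Ω}
    (hF : Hyp l ((rep E (Ω := Ω) (n ^ j)).comp F.fixingSubgroup.subtype).range) :
    IsCyclic ((rep E (Ω := Ω) (n ^ j)).comp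
      (F.fixingSubgroup ⊓ (rep E (Ω := Ω) n).ker).subtype).range := by
  obtain ⟨c, hc1, hc2, hc3⟩ := hF
  have hle : ((rep E (Ω := Ω) (n ^ j)).comp
      (F.fixingSubgroup ⊓ (rep E (Ω := Ω) n).ker).subtype).range ≤
      Subgroup.zpowers (c : Equiv.Perm (tor E (Ω := Ω) (n ^ j))) := by
    rintro _ ⟨⟨σ, hσ1, hσ2⟩, rfl⟩
    change rep E (Ω := Ω) (n ^ j) σ ∈ _
    have htriv : ∀ P ∈ tor E (Ω := Ω) n, act E σ P = P := by
      intro P hP
      have h1 : rep E (Ω := Ω) n σ = 1 := hσ2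
      have h2 := congrArg (fun f => ((f ⟨P, hP⟩ : tor E (Ω := Ω) n) : Pts E Ω)) h1
      exact h2
    set x : ((rep E (Ω := Ω) (n ^ j)).comp F.fixingSubgroup.subtype).range :=
      ⟨rep E (Ω := Ω) (n ^ j) σ, ⟨⟨σ, hσ1⟩, rfl⟩⟩ with hx
    have hord : x ^ n ^ j = 1 := by
      apply Subtype.ext
      change (rep E (Ω := Ω) (n ^ j) σ) ^ n ^ j = 1
      rw [← map_pow]
      apply Equiv.ext
      intro P
      apply Subtype.ext
      have h1 := pow_trivial E htriv j P.1 (by
        rw [mem_tor, pow_succ, mul_comm, mul_nsmul']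
        have h2 : n ^ j • P.1 = 0 := P.2
        rw [h2, nsmul_zero])
      exact h1
    have hcop : (orderOf x).Coprime l :=
      Nat.Coprime.coprime_dvd_left (orderOf_dvd_of_pow_eq_one hord) (Nat.Coprime.pow_left j hln)
    obtain ⟨k, hk⟩ := hc3 x
    obtain ⟨i, hi⟩ := mem_of_pow_mem (Nat.Coprime.pow_right k hcop) hk
    refine ⟨i, ?_⟩
    have h1 := congrArg Subtype.val hi
    simpa using h1
  exact isCyclic_of_injective (Subgroup.inclusion hle) (Subgroup.inclusion_injective hle)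

end

end Pool.Agent.V5helper60.HW
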