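import Pool.Agent.V5helper60.HW.Power
import Pool.Agent.V5helper60.HW.Sig2
import Pool.Agent.V5helper60.HW.Tor2

/-!
# Critical extensions for the continuation of the L-series
-/

set_option autoImplicit false

namespace Pool.Agent.V5helper60.HW

open NumberField IsDedekindDomain IntermediateField
open Pool.Agent.H341R2.EC Pool.Agent.R433.MD

section
variable {K Ω : Type} [Field K] [Field Ω] [Algebra K Ω]

/-- `P F` for all large finite subextensions of `M` -/
def Lrg (M : IntermediateField K Ω) (P : IntermediateField K Ω → Prop) : Prop :=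
  ∃ F₁ : IntermediateField K Ω, F₁ ≤ M ∧ FiniteDimensional K F₁ ∧
    ∀ F, F₁ ≤ F → F ≤ M → FiniteDimensional K F → P F

theorem lrg_iff (M : IntermediateField K Ω) (P : IntermediateField K Ω → Prop) :
    ¬ Lrg M P ↔ Pers P M := by
  unfold Lrg Pers
  push Not
  rfl

theorem lrg_iff' (M : IntermediateField K Ω) (P : IntermediateField K Ω → Prop) :
    Lrg M P ↔ ¬ Pers P M := by
  rw [← lrg_iff, not_not]

theorem Lrg.mono {M : IntermediateField K Ω} {P P' : IntermediateField K Ω → Prop}
    (h : Lrg M P)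
    (hP : ∀ F : IntermediateField K Ω, FiniteDimensional K F → P F → P' F) : Lrg M P' := by
  obtain ⟨F₁, h1, h2, h3⟩ := h
  exact ⟨F₁, h1, h2, fun F h4 h5 h6 => hP F h6 (h3 F h4 h5 h6)⟩

/-- `Q` fails for arbitrarily large finite subextensions of `M`, and holds for the large finite
subextensions of every larger field -/
def Crt (Q : IntermediateField K Ω → Prop) (M : IntermediateField K Ω) : Prop :=
  ¬ Lrg M Q ∧ ∀ N, M < N → Lrg N Q

/-- the subextensions that contain `M ⊓ L` -/
theorem lrg_of_inf [Normal K Ω] {M : IntermediateField K Ω} (L : IntermediateField K Ω)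
    [FiniteDimensional K L] {P : IntermediateField K Ω → Prop}
    (h : ∀ F, M ⊓ L ≤ F → F ≤ M → FiniteDimensional K F → P F) : Lrg M P :=
  ⟨M ⊓ L, inf_le_left,
    FiniteDimensional.of_injective
      (IntermediateField.inclusion (inf_le_right : M ⊓ L ≤ L)).toLinearMap
      (IntermediateField.inclusion (inf_le_right : M ⊓ L ≤ L)).injective, h⟩

end

section
variable {K : Type} [Field K] [NumberField K]

/-- the fixed field of `σ`, and the action of the automorphisms over its large finite subextensions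
on the torsion points -/
def Mono (E : WeierstrassCurve K) (σ : AlgebraicClosure K ≃ₐ[K] AlgebraicClosure K)
    (M : IntermediateField K (AlgebraicClosure K)) : Prop :=
  (∀ x, x ∈ M ↔ σ x = x) ∧ ∀ N : ℕ, 1 ≤ N → Lrg M fun F => ∀ τ ∈ F.fixingSubgroup, ∃ i : ℤ,
    ∀ P ∈ tor E (Ω := AlgebraicClosure K) N, act E τ P = act E (σ ^ i) P

theorem mono_of_cyclic {E : WeierstrassCurve K} (hE : E.IsElliptic)
    {M : IntermediateField K (AlgebraicClosure K)}
    (hcyc : ∀ (L : IntermediateField K (AlgebraicClosure K)) [Normal K L] [FiniteDimensional K L],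
      IsCyclic (img M L)) : ∃ σ, Mono E σ M := by
  have hc : Countable (AlgebraicClosure K) := countable_closure
  have hΔ : E.Δ ≠ 0 := E.isUnit_Δ.ne_zero
  obtain ⟨σ, hσ⟩ := exists_sigma' hcyc
  refine ⟨σ, hσ, fun N hN => ?_⟩
  obtain ⟨L, hL1, hL2, hL3⟩ := tor_field (Ω := AlgebraicClosure K) E hΔ hN
  refine lrg_of_inf L fun F h1 _ _ τ hτ => ?_
  obtain ⟨i, hi⟩ := pow_on_layer hσ L (IntermediateField.fixingSubgroup_le h1 hτ)
  exact ⟨i, hL3 _ _ hi⟩

open scoped Classical in
/-- **Critical extensions.** -/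
theorem crit_final (E : WeierstrassCurve K) (hE : E.IsElliptic) (U : Set ℂ) (h : ¬ Cont E U 1) :
    ∃ (M : IntermediateField K (AlgebraicClosure K)) (l : ℕ), l.Prime ∧
      Crt (OfType fun F _ _ _ => Cont (E.map (algebraMap K F)) U 1) M ∧
      (∀ (N : IntermediateField M (AlgebraicClosure K)) [FiniteDimensional M N] [IsGalois M N],
        Hyp l (N ≃ₐ[M] N)) ∧
      ((∃ σ, Mono E σ M) ∨
        ∃ k : ℕ, Lrg M (OfType fun F _ _ _ => Cont (E.map (algebraMap K F)) U (l ^ k))) ∧
      (∀ N : ℕ, 1 ≤ N → Lrg M fun F =>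
        Hyp l ((rep E (Ω := AlgebraicClosure K) N).comp F.fixingSubgroup.subtype).range) ∧
      (∀ N j : ℕ, 1 ≤ N → N.Coprime l → Lrg M fun F =>
        IsCyclic ((rep E (Ω := AlgebraicClosure K) (N ^ j)).comp
          (F.fixingSubgroup ⊓ (rep E (Ω := AlgebraicClosure K) N).ker).subtype).range) ∧
      ∀ p : ℕ, p.Prime → Lrg M fun F =>
        (∃ C : AddSubgroup (Pts E (AlgebraicClosure K)), Nat.card C = p ∧
          ∀ σ ∈ F.fixingSubgroup, ∀ P ∈ C, act E σ P ∈ C) ∨
        (∃ F' : IntermediateField K (AlgebraicClosure K), F ≤ F' ∧ FiniteDimensional K F' ∧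
          Module.finrank K F' ≤ 2 * Module.finrank K F ∧
          ∀ σ ∈ F'.fixingSubgroup, ∀ τ ∈ F'.fixingSubgroup,
            ∀ P ∈ tor E (Ω := AlgebraicClosure K) p,
              act E σ (act E τ P) = act E τ (act E σ P)) := by
  set QT : ∀ (F : Type) [Field F] [NumberField F] [Algebra K F], Prop :=
    fun F _ _ _ => Cont (E.map (algebraMap K F)) U 1 with hQT
  have hΔ : E.Δ ≠ 0 := E.isUnit_Δ.ne_zero
  have hGal : IsGalois K (AlgebraicClosure K) := ⟨⟩
  have hiso : ∀ (F : Type) [Field F] [NumberField F] [Algebra K F] (F' : Type) [Field F']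
      [NumberField F'] [Algebra K F'], (F ≃ₐ[K] F') → QT F → QT F' := by
    intro F _ _ _ F' _ _ _ e hF
    exact cont_congr e hE hF
  have hind : ∀ (F : Type) [Field F] [NumberField F] [Algebra K F] (L : Type) [Field L]
      [NumberField L] [Algebra F L] [IsGalois F L] [Algebra K L] [IsScalarTower K F L],
      (∀ H : Subgroup Gal(L/F), (∃ p : ℕ, p.Prime ∧ Hyp p H) →
        QT (IntermediateField.fixedField H)) → QT F := by
    intro F _ _ _ L _ _ _ _ _ _ hH
    exact cont_hyper hE F L hH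
  have h0 : ¬ OfType QT (⊥ : IntermediateField K (AlgebraicClosure K)) := by
    rintro ⟨hn, hq⟩
    apply h
    have h1 := hiso _ _ (IntermediateField.botEquiv K (AlgebraicClosure K)) hq
    have e : E.map (algebraMap K K) = E := E.map_id
    have h2 : Cont (E.map (algebraMap K K)) U 1 := h1
    rwa [e] at h2
  obtain ⟨M, hM1, hM2⟩ := exists_crit (OfType QT) h0
  have himg : ∀ (L : IntermediateField K (AlgebraicClosure K)) [Normal K L]
      [FiniteDimensional K L], ∃ l : ℕ, l.Prime ∧ Hyp l (img M L) := by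
    intro L _ _
    exact crit_img QT (fun G _ => ∃ p : ℕ, p.Prime ∧ Hyp p G) hiso
      (fun G G' _ _ _ f hf h => by
        obtain ⟨p, hp, h⟩ := h
        exact ⟨p, hp, Hyp.of_injective f hf h⟩)
      (fun Γ A B _ _ _ f g hf hg hk h => by
        obtain ⟨p, hp, h⟩ := h
        exact ⟨p, hp, Hyp.of_ker_le f hf g hg hk h⟩) hind hM1 hM2 L
  obtain ⟨l, hl, hall⟩ := one_prime himg
  have hgrp : ∀ N : ℕ, 1 ≤ N → Lrg M fun F =>
      Hyp l ((rep E (Ω := AlgebraicClosure K) N).comp F.fixingSubgroup.subtype).range := by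
    intro N hN
    obtain ⟨L, hL1, hL2, hL3⟩ := tor_field (Ω := AlgebraicClosure K) E hΔ hN
    refine lrg_of_inf L fun F h1 h2 h3 => ?_
    refine hyp_range (L := L) (rep E N) (fun σ hσ => rep_of_rho E (rho_of_agree E hL3 hσ)) ?_
    rw [img_eq_of_inf h1 h2]
    exact hall L
  refine ⟨M, l, hl, ⟨(lrg_iff _ _).2 hM1, fun N hN => (lrg_iff' _ _).2 (hM2 N hN)⟩, ?_, ?_, hgrp,
    ?_, ?_⟩
  · intro N _ _
    obtain ⟨L, hL1, hL2, g, hg1, hg2⟩ := gal_over M N
    exact Hyp.of_ker_le (rst M L) (rst_surjective _ _) g hg1 hg2 (hall L)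
  · by_cases hc : ∀ (L : IntermediateField K (AlgebraicClosure K)) [Normal K L]
        [FiniteDimensional K L], IsCyclic (img M L)
    · exact Or.inl (mono_of_cyclic hE hc)
    · push Not at hc
      obtain ⟨L, hN, hF, hnc⟩ := hc
      right
      obtain ⟨k, F₁, h1, h2, h3⟩ := crit_power hE hM2 hl L (hall L) hnc
      exact ⟨k, F₁, h1, h2, h3⟩
  · intro N j hN hNl
    have h1 := hgrp (N ^ j) (Nat.one_le_pow _ _ hN)
    exact h1.mono fun F _ hF => cyclic_on_layer E hNl hF
  · intro p hp
    obtain ⟨L, hL1, hL2, hL3⟩ := tor_field (Ω := AlgebraicClosure K) E hΔ hp.one_le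
    refine lrg_of_inf L fun F h1 h2 h3 => ?_
    refine tor_plane (L := L) E hΔ hp (fun σ hσ => rho_of_agree E hL3 hσ) h3 hl ?_
    rw [img_eq_of_inf h1 h2]
    exact hall L

/-- **Critical extensions for the powers.** -/
theorem critP_final (E : WeierstrassCurve K) (hE : E.IsElliptic) (U : Set ℂ) (h : ¬ ContP E U) :
    ∃ (M : IntermediateField K (AlgebraicClosure K))
      (σ : AlgebraicClosure K ≃ₐ[K] AlgebraicClosure K),
      Crt (OfType fun F _ _ _ => ContP (E.map (algebraMap K F)) U) M ∧ Mono E σ M := by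
  set QT : ∀ (F : Type) [Field F] [NumberField F] [Algebra K F], Prop :=
    fun F _ _ _ => ContP (E.map (algebraMap K F)) U with hQT
  have hiso : ∀ (F : Type) [Field F] [NumberField F] [Algebra K F] (F' : Type) [Field F']
      [NumberField F'] [Algebra K F'], (F ≃ₐ[K] F') → QT F → QT F' := by
    intro F _ _ _ F' _ _ _ e hF
    obtain ⟨m, hm, hF⟩ := hF
    exact ⟨m, hm, cont_congr e hE hF⟩
  have hind : ∀ (F : Type) [Field F] [NumberField F] [Algebra K F] (L : Type) [Field L]
      [NumberField L] [Algebra F L] [IsGalois F L] [Algebra K L] [IsScalarTower K F L],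
      (∀ H : Subgroup Gal(L/F), IsCyclic H → QT (IntermediateField.fixedField H)) → QT F := by
    intro F _ _ _ L _ _ _ _ _ _ hH
    exact contP_cyclic F hE L hH
  have h0 : ¬ OfType QT (⊥ : IntermediateField K (AlgebraicClosure K)) := by
    rintro ⟨hn, hq⟩
    apply h
    have h1 := hiso _ _ (IntermediateField.botEquiv K (AlgebraicClosure K)) hq
    have e : E.map (algebraMap K K) = E := E.map_id
    have h2 : ContP (E.map (algebraMap K K)) U := h1
    rwa [e] at h2
  obtain ⟨M, hM1, hM2⟩ := exists_crit (OfType QT) h0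
  have himg : ∀ (L : IntermediateField K (AlgebraicClosure K)) [Normal K L]
      [FiniteDimensional K L], IsCyclic (img M L) := by
    intro L _ _
    exact crit_img QT (fun G _ => IsCyclic G) hiso
      (fun G G' _ _ _ f hf h => isCyclic_of_injective f hf)
      (fun Γ A B _ _ _ f g hf hg hk h => cyclic_of_ker_le f g hf hg hk h) hind hM1 hM2 L
  obtain ⟨σ, hσ⟩ := mono_of_cyclic hE himg
  exact ⟨M, σ, ⟨(lrg_iff _ _).2 hM1, fun N hN => (lrg_iff' _ _).2 (hM2 N hN)⟩, hσ⟩

end

end Pool.Agent.V5helper60.HW
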