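import Mathlib

/-!
# Hyperelementary groups and their actions on planes over a prime field
-/

set_option autoImplicit false

namespace Pool.Agent.V5helper60.HW

/-- `G` has a normal cyclic subgroup of order prime to `l` and every element of `G` has a power of
`l`-power exponent in it. -/
def Hyp (l : ℕ) (G : Type*) [Group G] : Prop :=
  ∃ c : G, (orderOf c).Coprime l ∧ (∀ g : G, g * c * g⁻¹ ∈ Subgroup.zpowers c) ∧
    ∀ g : G, ∃ k : ℕ, g ^ l ^ k ∈ Subgroup.zpowers c

section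
variable {G : Type*} [Group G] {A : Type*} [Group A] {B : Type*} [Group B]

/-- quotients, in terms of kernels -/
theorem Hyp.of_ker_le {l : ℕ} (f : G →* A) (hf : Function.Surjective f) (g : G →* B)
    (hg : Function.Surjective g) (h : f.ker ≤ g.ker) (hA : Hyp l A) : Hyp l B := by
  obtain ⟨c, hc1, hc2, hc3⟩ := hA
  obtain ⟨γ, rfl⟩ := hf c
  have key : ∀ x : G, f x ∈ Subgroup.zpowers (f γ) → g x ∈ Subgroup.zpowers (g γ) := by
    rintro x ⟨i, hi⟩
    refine ⟨i, ?_⟩
    have h1 : x⁻¹ * γ ^ i ∈ f.ker := by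
      rw [MonoidHom.mem_ker, map_mul, map_inv, map_zpow]
      simp only at hi
      rw [hi, inv_mul_cancel]
    have h2 := h h1
    rw [MonoidHom.mem_ker, map_mul, map_inv, map_zpow, inv_mul_eq_one] at h2
    exact h2.symm
  refine ⟨g γ, ?_, fun b => ?_, fun b => ?_⟩
  · refine Nat.Coprime.coprime_dvd_left ?_ hc1
    apply orderOf_dvd_of_pow_eq_one
    rw [← map_pow, ← MonoidHom.mem_ker]
    apply h
    rw [MonoidHom.mem_ker, map_pow, pow_orderOf_eq_one]
  · obtain ⟨x, rfl⟩ := hg b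
    rw [← map_mul, ← map_inv, ← map_mul]
    apply key
    rw [map_mul, map_mul, map_inv]
    exact hc2 _
  · obtain ⟨x, rfl⟩ := hg b
    obtain ⟨k, hk⟩ := hc3 (f x)
    refine ⟨k, ?_⟩
    rw [← map_pow]
    apply key
    rw [map_pow]
    exact hk

theorem Hyp.of_surjective {l : ℕ} (f : A →* B) (hf : Function.Surjective f) (hA : Hyp l A) :
    Hyp l B :=
  Hyp.of_ker_le (MonoidHom.id A) Function.surjective_id f hf (by
    rw [(MonoidHom.ker_eq_bot_iff _).2 Function.injective_id]; exact bot_le) hA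

theorem Hyp.of_injective {l : ℕ} [Finite A] (f : B →* A) (hf : Function.Injective f)
    (hA : Hyp l A) : Hyp l B := by
  obtain ⟨c, hc1, hc2, hc3⟩ := hA
  have hfin : Finite B := Finite.of_injective f hf
  have hcyc : IsCyclic ((Subgroup.zpowers c).comap f) := by
    have h1 : ∀ x : (Subgroup.zpowers c).comap f, f x ∈ Subgroup.zpowers c := fun x => x.2
    let φ : (Subgroup.zpowers c).comap f →* Subgroup.zpowers c :=
      (f.comp (Subgroup.subtype _)).codRestrict (Subgroup.zpowers c) h1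
    refine isCyclic_of_injective φ fun x y h => ?_
    apply Subtype.ext
    exact hf (congrArg Subtype.val h)
  obtain ⟨⟨d, hd⟩, hgen⟩ := hcyc
  have hgen' : ∀ x : B, f x ∈ Subgroup.zpowers c → x ∈ Subgroup.zpowers d := by
    intro x hx
    obtain ⟨i, hi⟩ := hgen ⟨x, hx⟩
    exact ⟨i, congrArg Subtype.val hi⟩
  refine ⟨d, ?_, fun b => ?_, fun b => ?_⟩
  · refine Nat.Coprime.coprime_dvd_left ?_ hc1
    obtain ⟨i, hi⟩ := (hd : f d ∈ Subgroup.zpowers c)
    rw [← orderOf_injective f hf d, ← hi]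
    apply orderOf_dvd_of_pow_eq_one
    rw [← zpow_natCast, zpow_comm, zpow_natCast, pow_orderOf_eq_one, one_zpow]
  · apply hgen'
    obtain ⟨i, hi⟩ := (hd : f d ∈ Subgroup.zpowers c)
    simp only at hi
    rw [map_mul, map_mul, map_inv, ← hi, ← conj_zpow]
    exact Subgroup.zpow_mem _ (hc2 _) i
  · obtain ⟨k, hk⟩ := hc3 (f b)
    refine ⟨k, hgen' _ ?_⟩
    rw [map_pow]
    exact hk

/-- cyclic groups -/
theorem Hyp.of_cyclic {l : ℕ} (hl : l.Prime) [Finite G] (h : IsCyclic G) : Hyp l G := by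
  obtain ⟨c, hc⟩ := h
  have hpos : orderOf c ≠ 0 := (orderOf_pos c).ne'
  obtain ⟨a, m, hpm, hn⟩ := Nat.exists_eq_pow_mul_and_not_dvd hpos l hl.ne_one
  have hcomm : ∀ x y : G, x * y = y * x := by
    intro x y
    obtain ⟨i, rfl⟩ := hc x
    obtain ⟨j, rfl⟩ := hc y
    exact (zpow_mul_comm c i j)
  refine ⟨c ^ l ^ a, ?_, fun g => ?_, fun g => ?_⟩
  · have h1 : (c ^ l ^ a) ^ m = 1 := by rw [← pow_mul, ← hn, pow_orderOf_eq_one]
    exact Nat.Coprime.coprime_dvd_left (orderOf_dvd_of_pow_eq_one h1)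
      ((Nat.Prime.coprime_iff_not_dvd hl).2 hpm).symm
  · rw [hcomm g, mul_assoc, mul_inv_cancel, mul_one]
    exact Subgroup.mem_zpowers _
  · obtain ⟨i, rfl⟩ := hc g
    refine ⟨a, i, ?_⟩
    simp only
    rw [← zpow_natCast, ← zpow_natCast, ← zpow_mul, ← zpow_mul, mul_comm]

/-- a hyperelementary group of small order is cyclic -/
theorem Hyp.cyclic {l : ℕ} (hl : l.Prime) [Finite G] (hG : Nat.card G < l) (h : Hyp l G) :
    IsCyclic G := by
  obtain ⟨c, hc1, hc2, hc3⟩ := h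
  refine ⟨c, fun g => ?_⟩
  obtain ⟨k, hk⟩ := hc3 g
  have hcop : (l ^ k).Coprime (Nat.card G) := by
    apply Nat.Coprime.pow_left
    rw [Nat.Prime.coprime_iff_not_dvd hl]
    intro h1
    exact absurd (Nat.le_of_dvd Nat.card_pos h1) (not_le.2 hG)
  have h1 := Nat.gcd_eq_gcd_ab (l ^ k) (Nat.card G)
  rw [hcop] at h1
  have h2 : g = (g ^ l ^ k) ^ ((l ^ k).gcdA (Nat.card G)) := by
    conv_lhs => rw [← zpow_one g]
    have e : (1 : ℤ) = (l ^ k : ℕ) * (l ^ k).gcdA (Nat.card G) +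
        (Nat.card G : ℕ) * (l ^ k).gcdB (Nat.card G) := by
      rw [← h1]
      rfl
    rw [e, zpow_add, zpow_mul, zpow_mul, zpow_natCast, zpow_natCast, pow_card_eq_one', one_zpow,
      mul_one]
  rw [h2]
  exact Subgroup.zpow_mem _ hk _

end

end Pool.Agent.V5helper60.HW
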