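import Pool.Agent.V5helper60.HW.Plane

/-!
# Groups acting on a plane over a prime field through a hyperelementary group
-/

set_option autoImplicit false

namespace Pool.Agent.V5helper60.HW

open Module

section
variable {p : ℕ} [hp : Fact p.Prime] {V : Type*} [AddCommGroup V] [Module (ZMod p) V] [Finite V]
  {Γ : Type*} [Group Γ]

/-- the endomorphisms given by the elements of a group of automorphisms -/
noncomputable def inc (H : Subgroup (V ≃ₗ[ZMod p] V)) : H →* End (ZMod p) V where
  toFun h := (h.1 : V →ₗ[ZMod p] V)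
  map_one' := rfl
  map_mul' _ _ := rfl

theorem scalar_of_le_one (h1 : finrank (ZMod p) V ≤ 1) (t : End (ZMod p) V) :
    ∃ a : ZMod p, t = a • 1 := by
  refine LinearMap.exists_eq_smul_id_of_forall_notLinearIndependent fun v hv => ?_
  have h2 := hv.fintype_card_le_finrank
  simp at h2
  omega

/-- a group acting on a plane through a hyperelementary group stabilises a line or has a subgroup of
index at most two that acts through a commutative group -/
theorem hyper_plane {l : ℕ} (hl : l.Prime) (h2 : finrank (ZMod p) V ≤ 2)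
    (ρ : Γ →* (V ≃ₗ[ZMod p] V)) (h : Hyp l ρ.range) :
    (∃ W : Submodule (ZMod p) V, finrank (ZMod p) W = 1 ∧ ∀ g, ∀ w ∈ W, ρ g w ∈ W) ∨
    (∃ A : Subgroup Γ, A.index ≠ 0 ∧ A.index ≤ 2 ∧ ρ.ker ≤ A ∧
      ∀ a ∈ A, ∀ b ∈ A, ∀ w, ρ a (ρ b w) = ρ b (ρ a w)) := by
  classical
  have hFl : Fact l.Prime := ⟨hl⟩
  -- the commutative case
  have hcomm : (∀ a b : Γ, ∀ w, ρ a (ρ b w) = ρ b (ρ a w)) →
      ∃ A : Subgroup Γ, A.index ≠ 0 ∧ A.index ≤ 2 ∧ ρ.ker ≤ A ∧
      ∀ a ∈ A, ∀ b ∈ A, ∀ w, ρ a (ρ b w) = ρ b (ρ a w) := by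
    intro h3
    refine ⟨⊤, ?_, ?_, le_top, fun a _ b _ => h3 a b⟩
    · rw [Subgroup.index_top]; omega
    · rw [Subgroup.index_top]; omega
  by_cases h1 : finrank (ZMod p) V ≤ 1
  · right
    apply hcomm
    intro a b w
    obtain ⟨x, hx⟩ := scalar_of_le_one h1 (ρ a : V →ₗ[ZMod p] V)
    obtain ⟨y, hy⟩ := scalar_of_le_one h1 (ρ b : V →ₗ[ZMod p] V)
    have ha : ∀ w, ρ a w = x • w := fun w => LinearMap.congr_fun hx w
    have hb : ∀ w, ρ b w = y • w := fun w => LinearMap.congr_fun hy w
    rw [ha, hb, hb, ha, smul_smul, smul_smul, mul_comm]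
  have h2' : finrank (ZMod p) V = 2 := by omega
  -- transfer from the image
  have key : ∀ s : ρ.range, (¬ ∃ a : ZMod p, inc ρ.range s = a • 1) →
      (∀ h : ρ.range, Commute (inc ρ.range (h * s * h⁻¹)) (inc ρ.range s)) →
      (∃ W : Submodule (ZMod p) V, finrank (ZMod p) W = 1 ∧ ∀ g, ∀ w ∈ W, ρ g w ∈ W) ∨
      (∃ A : Subgroup Γ, A.index ≠ 0 ∧ A.index ≤ 2 ∧ ρ.ker ≤ A ∧
        ∀ a ∈ A, ∀ b ∈ A, ∀ w, ρ a (ρ b w) = ρ b (ρ a w)) := by
    intro s hs hc
    rcases plane h2' (inc ρ.range) s hs hc with ⟨W, hW, hW'⟩ | ⟨A, hA0, hA2, hAc⟩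
    · exact Or.inl ⟨W, hW, fun g w hw => hW' ⟨ρ g, g, rfl⟩ w hw⟩
    · right
      have hsurj : Function.Surjective ρ.rangeRestrict := ρ.rangeRestrict_surjective
      refine ⟨A.comap ρ.rangeRestrict, ?_, ?_, ?_, ?_⟩
      · rwa [Subgroup.index_comap_of_surjective _ hsurj]
      · rwa [Subgroup.index_comap_of_surjective _ hsurj]
      · intro g hg
        rw [Subgroup.mem_comap]
        have h3 : ρ.rangeRestrict g = 1 := Subtype.ext hg
        rw [h3]
        exact A.one_mem
      · intro a ha b hb w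
        have h3 := hAc _ ha _ hb
        exact LinearMap.congr_fun h3.eq w
  obtain ⟨c, hc1, hc2, hc3⟩ := h
  by_cases hcs : ∃ a : ZMod p, inc ρ.range c = a • 1
  · -- `c` is central
    have hcen : c ∈ Subgroup.center ρ.range := by
      obtain ⟨a, ha⟩ := hcs
      rw [Subgroup.mem_center_iff]
      intro g
      apply Subtype.ext
      ext w
      have h3 : ∀ w, (c : V ≃ₗ[ZMod p] V) w = a • w := fun w => LinearMap.congr_fun ha w
      change (g : V ≃ₗ[ZMod p] V) ((c : V ≃ₗ[ZMod p] V) w) = (c : V ≃ₗ[ZMod p] V) ((g : V ≃ₗ[ZMod p] V) w)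
      rw [h3, h3, map_smul]
    by_cases hZ : Subgroup.center ρ.range = ⊤
    · right
      apply hcomm
      intro a b w
      have h3 : (⟨ρ b, b, rfl⟩ : ρ.range) ∈ Subgroup.center ρ.range := by rw [hZ]; trivial
      rw [Subgroup.mem_center_iff] at h3
      have h4 := congrArg Subtype.val (h3 ⟨ρ a, a, rfl⟩)
      exact LinearEquiv.congr_fun h4 w
    · have hfin : Finite (V ≃ₗ[ZMod p] V) := by
        have : Finite (V → V) := inferInstance
        exact Finite.of_injective (fun e : V ≃ₗ[ZMod p] V => (e : V → V)) DFunLike.coe_injective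
      have hQ : IsPGroup l (ρ.range ⧸ Subgroup.center ρ.range) := by
        intro x
        obtain ⟨g, rfl⟩ := QuotientGroup.mk_surjective x
        obtain ⟨k, hk⟩ := hc3 g
        refine ⟨k, ?_⟩
        rw [← QuotientGroup.mk_pow, QuotientGroup.eq_one_iff]
        exact (Subgroup.zpowers_le.2 hcen) hk
      have hnt : Nontrivial (ρ.range ⧸ Subgroup.center ρ.range) := by
        by_contra hcon
        rw [not_nontrivial_iff_subsingleton] at hcon
        exact hZ (QuotientGroup.subgroup_eq_top_of_subsingleton _ hcon)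
      have hcn := hQ.center_nontrivial
      obtain ⟨⟨x, hx⟩, hx1⟩ := exists_ne (1 : Subgroup.center (ρ.range ⧸ Subgroup.center ρ.range))
      obtain ⟨s, rfl⟩ := QuotientGroup.mk_surjective x
      have hs : s ∉ Subgroup.center ρ.range := by
        intro h3
        apply hx1
        apply Subtype.ext
        exact (QuotientGroup.eq_one_iff s).2 h3
      refine key s ?_ fun h => ?_
      · rintro ⟨a, ha⟩
        apply hs
        rw [Subgroup.mem_center_iff]
        intro g
        apply Subtype.ext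
        ext w
        have h3 : ∀ w, (s : V ≃ₗ[ZMod p] V) w = a • w := fun w => LinearMap.congr_fun ha w
        change (g : V ≃ₗ[ZMod p] V) ((s : V ≃ₗ[ZMod p] V) w) = (s : V ≃ₗ[ZMod p] V) ((g : V ≃ₗ[ZMod p] V) w)
        rw [h3, h3, map_smul]
      · have h3 : (h * s * h⁻¹) * s⁻¹ ∈ Subgroup.center ρ.range := by
          rw [← QuotientGroup.eq_one_iff]
          rw [Subgroup.mem_center_iff] at hx
          have h4 := hx (h : ρ.range ⧸ Subgroup.center ρ.range)
          rw [QuotientGroup.mk_mul, QuotientGroup.mk_mul, QuotientGroup.mk_mul, QuotientGroup.mk_inv,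
            QuotientGroup.mk_inv, h4]
          group
        rw [Subgroup.mem_center_iff] at h3
        have h4 : (h * s * h⁻¹) * s = s * (h * s * h⁻¹) := by
          have h5 := h3 s
          calc (h * s * h⁻¹) * s = (h * s * h⁻¹ * s⁻¹) * s * s := by group
            _ = s * (h * s * h⁻¹ * s⁻¹) * s := by rw [h5]
            _ = s * (h * s * h⁻¹) := by group
        change inc ρ.range (h * s * h⁻¹) * inc ρ.range s = inc ρ.range s * inc ρ.range (h * s * h⁻¹)
        rw [← map_mul, ← map_mul, h4]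
  · refine key c hcs fun h => ?_
    obtain ⟨i, hi⟩ := hc2 h
    simp only at hi
    rw [← hi]
    change inc ρ.range (c ^ i) * inc ρ.range c = inc ρ.range c * inc ρ.range (c ^ i)
    rw [← map_mul, ← map_mul, (Commute.refl c).zpow_left i |>.eq]

end

end Pool.Agent.V5helper60.HW
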