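import Pool.Agent.V5helper60.HW.TorAct
import Pool.Agent.V5helper60.HW.Step
import Pool.Agent.V5helper60.HW.Cont

/-!
# Towers of number fields over which the continuation fails
-/

set_option autoImplicit false

namespace Pool.Agent.V5helper60.HW

open NumberField IsDedekindDomain Pool.Agent.R433.MD

section
variable {K : Type} [Field K] [NumberField K]

theorem countable_closure : Countable (AlgebraicClosure K) := by
  have h1 : Algebra.IsAlgebraic ℚ (AlgebraicClosure K) := Algebra.IsAlgebraic.trans ℚ K _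
  have h2 : Set.Countable {x : AlgebraicClosure K | IsAlgebraic ℚ x} :=
    Algebraic.countable ℚ (AlgebraicClosure K)
  have h3 : {x : AlgebraicClosure K | IsAlgebraic ℚ x} = Set.univ :=
    Set.eq_univ_of_forall fun x => Algebra.IsAlgebraic.isAlgebraic x
  rw [h3] at h2
  exact Set.countable_univ_iff.1 h2

/-- the tower for a property that descends from the subfields with a group in the class `P` -/
theorem exists_F (QT : ∀ (F : Type) [Field F] [NumberField F] [Algebra K F], Prop)
    (P : ∀ (G : Type) [Group G], Prop)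
    (hiso : ∀ (F : Type) [Field F] [NumberField F] [Algebra K F] (F' : Type) [Field F']
      [NumberField F'] [Algebra K F'], (F ≃ₐ[K] F') → QT F → QT F')
    (hinj : ∀ (G G' : Type) [Group G] [Group G'] [Finite G'] (f : G →* G'),
      Function.Injective f → P G' → P G)
    (hker : ∀ (Γ A B : Type) [Group Γ] [Group A] [Group B] (f : Γ →* A) (g : Γ →* B),
      Function.Surjective f → Function.Surjective g → f.ker ≤ g.ker → P A → P B)
    (hind : ∀ (F : Type) [Field F] [NumberField F] [Algebra K F] (L : Type) [Field L]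
      [NumberField L] [Algebra F L] [IsGalois F L] [Algebra K L] [IsScalarTower K F L],
      (∀ H : Subgroup Gal(L/F), P H → QT (IntermediateField.fixedField H)) → QT F)
    (h0 : ¬ QT K) :
    ∃ (L : ℕ → IntermediateField K (AlgebraicClosure K)) (hN : ∀ n, Normal K (L n))
      (F : ℕ → IntermediateField K (AlgebraicClosure K)),
      Monotone L ∧ (∀ n, FiniteDimensional K (L n)) ∧ (∀ x, ∃ n, x ∈ L n) ∧ Monotone F ∧
      (∀ n, F n ≤ L n) ∧ (∀ n, ¬ OfType QT (F n)) ∧ ∀ n, P (img (F (n + 1)) (L (n + 1))) := by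
  have hc : Countable (AlgebraicClosure K) := countable_closure
  obtain ⟨L, hmono, hN, hfd, hx⟩ := exists_layers (K := K) (Ω := AlgebraicClosure K)
  have h0' : ¬ OfType QT (⊥ : IntermediateField K (AlgebraicClosure K)) := by
    rintro ⟨hn, hq⟩
    exact h0 (hiso _ _ (IntermediateField.botEquiv K (AlgebraicClosure K)) hq)
  obtain ⟨F, -, hFm, hFL, hFQ, hFP⟩ := exists_tower hmono hN (OfType QT)
    (fun F L hL => P (img F L)) h0' (fun n F hFL hF =>
      step_of QT P hiso hinj hker hind F (L n) hFL hF)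
  exact ⟨L, hN, F, hmono, hfd, hx, hFm, hFL, hFQ, hFP⟩

/-- the hyperelementary tower -/
theorem hyper_tower (QT : ∀ (F : Type) [Field F] [NumberField F] [Algebra K F], Prop)
    (hiso : ∀ (F : Type) [Field F] [NumberField F] [Algebra K F] (F' : Type) [Field F']
      [NumberField F'] [Algebra K F'], (F ≃ₐ[K] F') → QT F → QT F')
    (hind : ∀ (F : Type) [Field F] [NumberField F] [Algebra K F] (L : Type) [Field L]
      [NumberField L] [Algebra F L] [IsGalois F L] [Algebra K L] [IsScalarTower K F L],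
      (∀ H : Subgroup Gal(L/F), (∃ p : ℕ, p.Prime ∧ Hyp p H) →
        QT (IntermediateField.fixedField H)) → QT F)
    (h0 : ¬ QT K) :
    ∃ (L : ℕ → IntermediateField K (AlgebraicClosure K)) (hN : ∀ n, Normal K (L n))
      (F : ℕ → IntermediateField K (AlgebraicClosure K)) (l : ℕ), l.Prime ∧
      Monotone L ∧ (∀ n, FiniteDimensional K (L n)) ∧ (∀ x, ∃ n, x ∈ L n) ∧ Monotone F ∧
      (∀ n, FiniteDimensional K (F n)) ∧ (∀ n, ¬ OfType QT (F n)) ∧ ∀ n, Hyp l (img (F n) (L n)) := by
  obtain ⟨L, hN, F, hmono, hfd, hx, hFm, hFL, hFQ, hFP⟩ := exists_F QT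
    (fun G _ => ∃ p : ℕ, p.Prime ∧ Hyp p G) hiso
    (fun G G' _ _ _ f hf h => by
      obtain ⟨p, hp, h⟩ := h
      exact ⟨p, hp, Hyp.of_injective f hf h⟩)
    (fun Γ A B _ _ _ f g hf hg hk h => by
      obtain ⟨p, hp, h⟩ := h
      exact ⟨p, hp, Hyp.of_ker_le f hf g hg hk h⟩) hind h0
  obtain ⟨l, φ, hl, hφ, -, hHyp⟩ := uniform hmono hFm hFP
  refine ⟨L, hN, fun n => F (φ n), l, hl, hmono, hfd, hx, fun a b hab => hFm (hφ hab), fun n => ?_,
    fun n => hFQ _, hHyp⟩
  exact FiniteDimensional.of_injective (IntermediateField.inclusion (hFL (φ n))).toLinearMap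
    (IntermediateField.inclusion (hFL (φ n))).injective

/-- the cyclic tower -/
theorem cyclic_tower (QT : ∀ (F : Type) [Field F] [NumberField F] [Algebra K F], Prop)
    (hiso : ∀ (F : Type) [Field F] [NumberField F] [Algebra K F] (F' : Type) [Field F']
      [NumberField F'] [Algebra K F'], (F ≃ₐ[K] F') → QT F → QT F')
    (hind : ∀ (F : Type) [Field F] [NumberField F] [Algebra K F] (L : Type) [Field L]
      [NumberField L] [Algebra F L] [IsGalois F L] [Algebra K L] [IsScalarTower K F L],
      (∀ H : Subgroup Gal(L/F), IsCyclic H →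
        QT (IntermediateField.fixedField H)) → QT F)
    (h0 : ¬ QT K) :
    ∃ (L : ℕ → IntermediateField K (AlgebraicClosure K)) (hN : ∀ n, Normal K (L n))
      (F : ℕ → IntermediateField K (AlgebraicClosure K)),
      Monotone L ∧ (∀ n, FiniteDimensional K (L n)) ∧ (∀ x, ∃ n, x ∈ L n) ∧ Monotone F ∧
      (∀ n, FiniteDimensional K (F n)) ∧ (∀ n, ¬ OfType QT (F n)) ∧
      ∀ n, IsCyclic (img (F n) (L n)) := by
  obtain ⟨L, hN, F, hmono, hfd, hx, hFm, hFL, hFQ, hFP⟩ := exists_F QT
    (fun G _ => IsCyclic G) hiso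
    (fun G G' _ _ _ f hf h => isCyclic_of_injective f hf)
    (fun Γ A B _ _ _ f g hf hg hk h => cyclic_of_ker_le f g hf hg hk h) hind h0
  refine ⟨fun n => L (n + 1), fun n => hN (n + 1), fun n => F (n + 1),
    fun a b hab => hmono (by omega), fun n => hfd _, fun x => ?_, fun a b hab => hFm (by omega),
    fun n => ?_, fun n => hFQ _, hFP⟩
  · obtain ⟨n, hn⟩ := hx x
    exact ⟨n, hmono (Nat.le_succ n) hn⟩
  · exact FiniteDimensional.of_injective (IntermediateField.inclusion (hFL (n + 1))).toLinearMap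
      (IntermediateField.inclusion (hFL (n + 1))).injective

/-- the tower for the continuation -/
theorem cont_tower (E : WeierstrassCurve K) (hE : E.IsElliptic) (U : Set ℂ) (h : ¬ Cont E U 1) :
    ∃ (L : ℕ → IntermediateField K (AlgebraicClosure K)) (hN : ∀ n, Normal K (L n))
      (F : ℕ → IntermediateField K (AlgebraicClosure K)) (l : ℕ), l.Prime ∧
      Monotone L ∧ (∀ n, FiniteDimensional K (L n)) ∧ (∀ x, ∃ n, x ∈ L n) ∧ Monotone F ∧
      (∀ n, FiniteDimensional K (F n)) ∧
      (∀ n, ¬ OfType (fun F _ _ _ => Cont (E.map (algebraMap K F)) U 1) (F n)) ∧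
      ∀ n, Hyp l (img (F n) (L n)) := by
  refine hyper_tower (fun F _ _ _ => Cont (E.map (algebraMap K F)) U 1) ?_ ?_ ?_
  · intro F _ _ _ F' _ _ _ e hF
    exact cont_congr e hE hF
  · intro F _ _ _ L _ _ _ _ _ _ hH
    exact cont_hyper hE F L hH
  · have e : E.map (algebraMap K K) = E := E.map_id
    rw [e]
    exact h

/-- the tower for the continuation of powers -/
theorem contP_tower (E : WeierstrassCurve K) (hE : E.IsElliptic) (U : Set ℂ) (h : ¬ ContP E U) :
    ∃ (L : ℕ → IntermediateField K (AlgebraicClosure K)) (hN : ∀ n, Normal K (L n))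
      (F : ℕ → IntermediateField K (AlgebraicClosure K)),
      Monotone L ∧ (∀ n, FiniteDimensional K (L n)) ∧ (∀ x, ∃ n, x ∈ L n) ∧ Monotone F ∧
      (∀ n, FiniteDimensional K (F n)) ∧
      (∀ n, ¬ OfType (fun F _ _ _ => ContP (E.map (algebraMap K F)) U) (F n)) ∧
      ∀ n, IsCyclic (img (F n) (L n)) := by
  refine cyclic_tower (fun F _ _ _ => ContP (E.map (algebraMap K F)) U) ?_ ?_ ?_
  · intro F _ _ _ F' _ _ _ e hF
    obtain ⟨m, hm, hF⟩ := hF
    exact ⟨m, hm, cont_congr e hE hF⟩
  · intro F _ _ _ L _ _ _ _ _ _ hH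
    exact contP_cyclic F hE L hH
  · have e : E.map (algebraMap K K) = E := E.map_id
    rw [e]
    exact h

end

end Pool.Agent.V5helper60.HW
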