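import Pool.Agent.V5helper60.HW.Grp

/-!
# Actions of hyperelementary groups on planes over a prime field
-/

set_option autoImplicit false

namespace Pool.Agent.V5helper60.HW

open Module

section
variable {F : Type*} [Field F] {V : Type*} [AddCommGroup V] [Module F V]

/-- a cyclic vector of a nonscalar endomorphism of a plane, and its characteristic polynomial -/
theorem exists_cyclic (h2 : finrank F V = 2) {s : End F V} (hs : ¬ ∃ a : F, s = a • 1) :
    ∃ (v : V) (T D : F), LinearIndependent F ![v, s v] ∧ s * s = T • s - D • 1 ∧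
      ∀ t : End F V, Commute t s → ∃ a b : F, t = a • 1 + b • s := by
  have hfd : FiniteDimensional F V := FiniteDimensional.of_finrank_pos (by omega)
  have h1 : ∃ v, LinearIndependent F ![v, s v] := by
    by_contra hcon
    push Not at hcon
    exact hs (LinearMap.exists_eq_smul_id_of_forall_notLinearIndependent hcon)
  obtain ⟨v, hv⟩ := h1
  let b : Basis (Fin 2) F V := basisOfLinearIndependentOfCardEqFinrank hv (by rw [h2]; rfl)
  have hb : ⇑b = ![v, s v] := coe_basisOfLinearIndependentOfCardEqFinrank hv _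
  have hb0 : b 0 = v := by rw [hb]; rfl
  have hb1 : b 1 = s v := by rw [hb]; rfl
  have hexp : ∀ w : V, ∃ x y : F, w = x • v + y • s v := by
    intro w
    refine ⟨b.repr w 0, b.repr w 1, ?_⟩
    conv_lhs => rw [← b.sum_repr w]
    rw [Fin.sum_univ_two, hb0, hb1]
  have hext : ∀ t t' : End F V, t v = t' v → t (s v) = t' (s v) → t = t' := by
    intro t t' h0 h1
    refine b.ext fun i => ?_
    fin_cases i
    · change t (b 0) = t' (b 0)
      rw [hb0, h0]
    · change t (b 1) = t' (b 1)
      rw [hb1, h1]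
  obtain ⟨x, y, hxy⟩ := hexp (s (s v))
  refine ⟨v, y, -x, hv, ?_, fun t ht => ?_⟩
  · have h0 : (s * s) v = (y • s - (-x) • (1 : End F V)) v := by
      change s (s v) = y • s v - (-x) • v
      rw [hxy, neg_smul, sub_neg_eq_add, add_comm]
    refine hext _ _ h0 ?_
    have h1 := congrArg s h0
    change s (s (s v)) = s (y • s v - (-x) • v) at h1
    change s (s (s v)) = y • s (s v) - (-x) • s v
    rw [h1, map_sub, map_smul, map_smul]
  · obtain ⟨a, c, hac⟩ := hexp (t v)
    refine ⟨a, c, hext _ _ hac ?_⟩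
    have h1 : t (s v) = s (t v) := by
      have := LinearMap.congr_fun ht.eq v
      exact this
    rw [h1, hac]
    change s (a • v + c • s v) = a • s v + c • s (s v)
    rw [map_add, map_smul, map_smul]

/-- the coefficients of a conjugate that commutes with the given endomorphism -/
theorem coeffs {s t : End F V} {v : V} {T D a b : F} (hv : LinearIndependent F ![v, s v])
    (hs : s * s = T • s - D • 1) (ht : t * t = T • t - D • 1) (hab : t = a • 1 + b • s)
    (hb : b ≠ 0) : a ^ 2 - b ^ 2 * D = T * a - D ∧ 2 * a + b * T = T := by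
  have hss : s (s v) = T • s v - D • v := by
    have := LinearMap.congr_fun hs v
    exact this
  have h1 : t (t v) = T • t v - D • v := by
    have := LinearMap.congr_fun ht v
    exact this
  have htv : ∀ w, t w = a • w + b • s w := fun w => by rw [hab]; rfl
  rw [htv, htv, map_add, map_smul, map_smul, hss] at h1
  have h2 : (a ^ 2 - b ^ 2 * D - (T * a - D)) • v + (2 * a * b + b ^ 2 * T - T * b) • s v = 0 := by
    have h3 := sub_eq_zero.2 h1
    rw [← h3]
    module
  have h4 := (LinearIndependent.pair_iff.1 hv) _ _ h2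
  refine ⟨sub_eq_zero.1 h4.1, ?_⟩
  have h5 : b * (2 * a + b * T - T) = 0 := by
    rw [← h4.2]
    ring
  rcases mul_eq_zero.1 h5 with h6 | h6
  · exact absurd h6 hb
  · exact sub_eq_zero.1 h6

/-- different eigenvalues -/
theorem two_conj {T D a b : F} (h1 : a ^ 2 - b ^ 2 * D = T * a - D) (h2 : 2 * a + b * T = T)
    (hΔ : T ^ 2 - 4 * D ≠ 0) : (a = 0 ∧ b = 1) ∨ (a = T ∧ b = -1) := by
  have h3 : (1 - b ^ 2) * (T ^ 2 - 4 * D) = 0 := by
    linear_combination (-4 : F) * h1 + (2 * a - T - b * T) * h2
  have h4 : b ^ 2 = 1 := by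
    rcases mul_eq_zero.1 h3 with h | h
    · exact (sub_eq_zero.1 h).symm
    · exact absurd h hΔ
  have h5 : a * (T - a) = 0 := by
    linear_combination -h1 - D * h4
  have h7 : b = 1 ∨ b = -1 := by
    have h8 : (b - 1) * (b + 1) = 0 := by linear_combination h4
    rcases mul_eq_zero.1 h8 with h9 | h9
    · exact Or.inl (sub_eq_zero.1 h9)
    · exact Or.inr (eq_neg_of_add_eq_zero_left h9)
  rcases mul_eq_zero.1 h5 with h6 | h6
  · rcases h7 with h7 | h7
    · exact Or.inl ⟨h6, h7⟩
    · have h8 : (2 : F) * T = 0 := by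
        rw [h6, h7] at h2
        linear_combination -h2
      rcases mul_eq_zero.1 h8 with h9 | h9
      · refine Or.inl ⟨h6, ?_⟩
        rw [h7]
        linear_combination -h9
      · exact Or.inr ⟨by rw [h6, h9], h7⟩
  · have h8 : a = T := (sub_eq_zero.1 h6).symm
    rcases h7 with h7 | h7
    · have h9 : (2 : F) * T = 0 := by
        rw [h8, h7] at h2
        linear_combination h2
      rcases mul_eq_zero.1 h9 with h10 | h10
      · refine Or.inr ⟨h8, ?_⟩
        rw [h7]
        linear_combination h10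
      · exact Or.inl ⟨by rw [h8, h10], h7⟩
    · exact Or.inr ⟨h8, h7⟩

/-- a conjugation of a nonscalar endomorphism of a plane over a prime field -/
theorem plane {p : ℕ} [hp : Fact p.Prime] {V : Type*} [AddCommGroup V] [Module (ZMod p) V]
    (h2 : finrank (ZMod p) V = 2)
    {H : Type*} [Group H] (ρ : H →* End (ZMod p) V) (s : H)
    (hs : ¬ ∃ a : ZMod p, ρ s = a • 1) (hc : ∀ h, Commute (ρ (h * s * h⁻¹)) (ρ s)) :
    (∃ W : Submodule (ZMod p) V, finrank (ZMod p) W = 1 ∧ ∀ h, ∀ w ∈ W, ρ h w ∈ W) ∨
    (∃ A : Subgroup H, A.index ≠ 0 ∧ A.index ≤ 2 ∧ ∀ a ∈ A, ∀ b ∈ A, Commute (ρ a) (ρ b)) := by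
  have hfd : FiniteDimensional (ZMod p) V := FiniteDimensional.of_finrank_pos (by omega)
  obtain ⟨v, T, D, hv, hss, hpoly⟩ := exists_cyclic h2 hs
  have hinv : ∀ h : H, ρ h⁻¹ * ρ h = 1 := fun h => by rw [← map_mul, inv_mul_cancel, map_one]
  have hinv' : ∀ h : H, ρ h * ρ h⁻¹ = 1 := fun h => by rw [← map_mul, mul_inv_cancel, map_one]
  have hconj : ∀ h : H, ρ (h * s * h⁻¹) = ρ h * ρ s * ρ h⁻¹ := fun h => by rw [map_mul, map_mul]
  have hchar : ∀ h : H, ρ (h * s * h⁻¹) * ρ (h * s * h⁻¹) = T • ρ (h * s * h⁻¹) - D • 1 := by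
    intro h
    have e1 : ρ h * ρ s * ρ h⁻¹ * (ρ h * ρ s * ρ h⁻¹) = ρ h * (ρ s * ρ s) * ρ h⁻¹ := by
      calc _ = ρ h * ρ s * (ρ h⁻¹ * ρ h) * ρ s * ρ h⁻¹ := by simp only [mul_assoc]
        _ = _ := by rw [hinv, mul_one]; simp only [mul_assoc]
    rw [hconj, e1, hss, mul_sub, sub_mul, mul_smul_comm, smul_mul_assoc, mul_smul_comm,
      smul_mul_assoc, mul_one, hinv']
  have hcoef : ∀ h : H, ∃ a b : ZMod p, ρ (h * s * h⁻¹) = a • 1 + b • ρ s ∧ b ≠ 0 ∧
      a ^ 2 - b ^ 2 * D = T * a - D ∧ 2 * a + b * T = T := by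
    intro h
    obtain ⟨a, b, hab⟩ := hpoly _ (hc h)
    have hb : b ≠ 0 := by
      rintro rfl
      apply hs
      refine ⟨a, ?_⟩
      rw [zero_smul, add_zero, hconj] at hab
      calc ρ s = ρ h⁻¹ * (ρ h * ρ s * ρ h⁻¹) * ρ h := by
            rw [← mul_assoc, ← mul_assoc, hinv, one_mul, mul_assoc, hinv, mul_one]
        _ = a • 1 := by rw [hab, mul_smul_comm, smul_mul_assoc, mul_one, hinv]
    obtain ⟨e1, e2⟩ := coeffs hv hss (hchar h) hab hb
    exact ⟨a, b, hab, hb, e1, e2⟩
  by_cases hΔ : T ^ 2 - 4 * D = 0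
  · -- a double eigenvalue
    left
    have hlam : ∃ l : ZMod p, 2 * l = T ∧ l ^ 2 = D := by
      by_cases hp2 : p = 2
      · subst hp2
        have h20 : (2 : ZMod 2) = 0 := by
          have := ZMod.natCast_self 2
          exact_mod_cast this
        have h40 : (4 : ZMod 2) = 0 := by
          have e : (4 : ZMod 2) = 2 * 2 := by norm_num
          rw [e, h20, zero_mul]
        have hT : T = 0 := by
          rw [h40, zero_mul, sub_zero] at hΔ
          exact pow_eq_zero_iff (two_ne_zero) |>.1 hΔ
        exact ⟨D, by rw [h20, zero_mul, hT], ZMod.pow_card D⟩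
      · have h20 : (2 : ZMod p) ≠ 0 := by
          intro h
          apply hp2
          have h1 : ((2 : ℕ) : ZMod p) = 0 := by exact_mod_cast h
          rw [ZMod.natCast_eq_zero_iff] at h1
          exact (Nat.prime_dvd_prime_iff_eq hp.out Nat.prime_two).1 h1
        refine ⟨T / 2, by field_simp, ?_⟩
        field_simp
        linear_combination hΔ
    obtain ⟨l, hl1, hl2⟩ := hlam
    set N : End (ZMod p) V := ρ s - l • 1 with hN
    have hNN : N * N = 0 := by
      rw [hN, sub_mul, mul_sub, mul_sub, hss, smul_mul_assoc, mul_smul_comm, smul_mul_smul_comm,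
        one_mul, mul_one, mul_one, ← hl1, ← hl2]
      module
    have hN0 : N ≠ 0 := by
      intro h
      exact hs ⟨l, sub_eq_zero.1 h⟩
    have hmem : ∀ w, w ∈ LinearMap.ker N ↔ ρ s w = l • w := by
      intro w
      rw [LinearMap.mem_ker, hN]
      exact sub_eq_zero
    refine ⟨LinearMap.ker N, ?_, fun h w hw => ?_⟩
    · have h3 : 0 < finrank (ZMod p) (LinearMap.ker N) := by
        rw [Module.finrank_pos_iff, Submodule.nontrivial_iff_ne_bot]
        intro h4
        apply hN0
        ext w
        have h5 : N w ∈ LinearMap.ker N := LinearMap.congr_fun hNN w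
        rw [h4, Submodule.mem_bot] at h5
        exact h5
      have h4 : finrank (ZMod p) (LinearMap.ker N) < 2 := by
        rw [← h2]
        apply Submodule.finrank_lt
        intro h5
        exact hN0 (LinearMap.ker_eq_top.1 h5)
      omega
    · obtain ⟨a, b, hab, hb, -, -⟩ := hcoef h
      rw [hmem] at hw ⊢
      set u := ρ h w with hu
      have e1 : ρ (h * s * h⁻¹) u = l • u := by
        rw [hconj, hu]
        change ρ h (ρ s (ρ h⁻¹ (ρ h w))) = l • ρ h w
        have e2 : ρ h⁻¹ (ρ h w) = w := LinearMap.congr_fun (hinv h) w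
        rw [e2, hw, map_smul]
      rw [hab] at e1
      have e2 : a • u + b • ρ s u = l • u := e1
      have e3 : ρ s u = ((l - a) / b) • u := by
        have e4 : b • ρ s u = (l - a) • u := by
          rw [sub_smul, ← e2, add_sub_cancel_left]
        rw [div_eq_inv_mul, mul_smul, ← e4, smul_smul, inv_mul_cancel₀ hb, one_smul]
      set m := (l - a) / b with hm
      have e5 : N u = (m - l) • u := by
        change ρ s u - l • u = _
        rw [e3, sub_smul]
      have e6 : (m - l) • (m - l) • u = 0 := by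
        rw [← e5, ← map_smul, ← e5]
        exact LinearMap.congr_fun hNN u
      rw [smul_smul] at e6
      rcases smul_eq_zero.1 e6 with e7 | e7
      · have e8 : m = l := sub_eq_zero.1 (mul_self_eq_zero.1 e7)
        rw [e3, e8]
      · rw [e7, map_zero, smul_zero]
  · -- different eigenvalues
    right
    have hdich : ∀ h : H, ρ (h * s * h⁻¹) = ρ s ∨ ρ (h * s * h⁻¹) = T • 1 - ρ s := by
      intro h
      obtain ⟨a, b, hab, hb, e1, e2⟩ := hcoef h
      rcases two_conj e1 e2 hΔ with ⟨h3, h4⟩ | ⟨h3, h4⟩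
      · left
        rw [hab, h3, h4, zero_smul, zero_add, one_smul]
      · right
        rw [hab, h3, h4, neg_one_smul, sub_eq_add_neg]
    have hmemA : ∀ h : H, Commute (ρ h) (ρ s) ↔ ρ (h * s * h⁻¹) = ρ s := by
      intro h
      rw [hconj]
      constructor
      · intro h3
        rw [h3.eq, mul_assoc, hinv', mul_one]
      · intro h3
        have h4 : ρ h * ρ s * ρ h⁻¹ * ρ h = ρ s * ρ h := by rw [h3]
        rw [mul_assoc, hinv, mul_one] at h4
        exact h4
    let A : Subgroup H :=
      { carrier := {h | Commute (ρ h) (ρ s)}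
        mul_mem' := by
          intro a b ha hb
          change Commute (ρ (a * b)) (ρ s)
          rw [map_mul]
          exact Commute.mul_left ha hb
        one_mem' := by
          change Commute (ρ 1) (ρ s)
          rw [map_one]
          exact Commute.one_left _
        inv_mem' := by
          intro a ha
          have h3 : ρ a * ρ s = ρ s * ρ a := ha
          change ρ a⁻¹ * ρ s = ρ s * ρ a⁻¹
          calc ρ a⁻¹ * ρ s = ρ a⁻¹ * ρ s * (ρ a * ρ a⁻¹) := by rw [hinv', mul_one]
            _ = ρ a⁻¹ * (ρ s * ρ a) * ρ a⁻¹ := by simp only [mul_assoc]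
            _ = ρ a⁻¹ * (ρ a * ρ s) * ρ a⁻¹ := by rw [h3]
            _ = (ρ a⁻¹ * ρ a) * (ρ s * ρ a⁻¹) := by simp only [mul_assoc]
            _ = ρ s * ρ a⁻¹ := by rw [hinv, one_mul] }
    have hA : ∀ h : H, h ∈ A ↔ ρ (h * s * h⁻¹) = ρ s := hmemA
    have hidx : A.index ≠ 0 ∧ A.index ≤ 2 := by
      by_cases htop : A = ⊤
      · rw [htop, Subgroup.index_top]
        omega
      · have h3 : ∃ g, g ∉ A := by
          by_contra hcon
          push Not at hcon
          exact htop ((Subgroup.eq_top_iff' A).2 hcon)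
        obtain ⟨g, hg⟩ := h3
        have h4 : A.index = 2 := by
          rw [Subgroup.index_eq_two_iff]
          refine ⟨g, fun b => ?_⟩
          by_cases hb : b ∈ A
          · right
            refine ⟨hb, fun h5 => hg ?_⟩
            have h6 := A.mul_mem (A.inv_mem hb) h5
            rwa [inv_mul_cancel_left] at h6
          · left
            refine ⟨?_, hb⟩
            rw [hA]
            have h5 : ρ (b * g * s * (b * g)⁻¹) = ρ b * ρ (g * s * g⁻¹) * ρ b⁻¹ := by
              rw [← map_mul, ← map_mul]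
              congr 1
              group
            have h6 : ρ (g * s * g⁻¹) = T • 1 - ρ s :=
              (hdich g).resolve_left fun h => hg ((hA g).2 h)
            have h7 : ρ (b * s * b⁻¹) = T • 1 - ρ s :=
              (hdich b).resolve_left fun h => hb ((hA b).2 h)
            rw [h5, h6, mul_sub, sub_mul, mul_smul_comm, smul_mul_assoc, mul_one, hinv', ← hconj,
              h7, sub_sub_cancel]
        omega
    refine ⟨A, hidx.1, hidx.2, fun a ha b hb => ?_⟩
    obtain ⟨x, y, hxy⟩ := hpoly (ρ b) hb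
    rw [hxy]
    have ha' : Commute (ρ a) (ρ s) := ha
    exact ((Commute.one_right (ρ a)).smul_right x).add_right (ha'.smul_right y)

end

end Pool.Agent.V5helper60.HW
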