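import Pool.Agent.V5helper60.HW.Rel
import Pool.Agent.V5helper60.HW.Crit2
import Pool.Agent.V5helper60.HW.Main

/-!
# Powers of the L-series over the large finite subextensions of a critical extension
-/

set_option autoImplicit false

namespace Pool.Agent.V5helper60.HW

open NumberField IsDedekindDomain IntermediateField
open Pool.Agent.H341R2.EC Pool.Agent.R433.MD

section
variable {K Ω : Type} [Field K] [NumberField K] [Field Ω] [Algebra K Ω]

omit [NumberField K] in
/-- the Galois group of the compositum over a large subextension -/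
theorem exists_gal_equiv [IsGalois K Ω] {M F L : IntermediateField K Ω} [Normal K L]
    [FiniteDimensional K L] [Normal F (EL F L)] (h : M ⊓ L ≤ F) (hF : F ≤ M) :
    Nonempty (Gal(EL F L/F) ≃* img M L) := by
  let e1 := QuotientGroup.quotientKerEquivOfSurjective (psi F L) (psi_surjective F L)
  let e2 := QuotientGroup.quotientKerEquivOfSurjective (rst F L) (rst_surjective F L)
  let e3 := QuotientGroup.quotientMulEquivOfEq (ker_psi F L)
  let e4 : img F L ≃* img M L := MulEquiv.subgroupCongr (img_eq_of_inf h hF)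
  exact ⟨((e1.symm.trans e3).trans e2).trans e4⟩

/-- **the non-cyclic case** -/
theorem crit_power [Normal K Ω] {E : WeierstrassCurve K} (hE : E.IsElliptic) {U : Set ℂ}
    {M : IntermediateField K Ω}
    (hM2 : ∀ N, M < N → ¬ Pers (OfType fun F _ _ _ => Cont (E.map (algebraMap K F)) U 1) N)
    {l : ℕ} (hl : l.Prime) (L : IntermediateField K Ω) [Normal K L] [FiniteDimensional K L]
    (hHyp : Hyp l (img M L)) (hnc : ¬ IsCyclic (img M L)) :
    ∃ (k : ℕ) (F₁ : IntermediateField K Ω), F₁ ≤ M ∧ FiniteDimensional K F₁ ∧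
      ∀ F, F₁ ≤ F → F ≤ M → FiniteDimensional K F →
        OfType (fun F _ _ _ => Cont (E.map (algebraMap K F)) U (l ^ k)) F := by
  have hCZ : CharZero Ω := charZero_of_injective_algebraMap (algebraMap K Ω).injective
  have hGal : IsGalois K Ω := ⟨⟩
  obtain ⟨k, n, hn, hsum⟩ := exists_rel (img M L) l
  obtain ⟨F₁, h1, h2, h3, h4⟩ := crit_ext hM2 L
  refine ⟨k, F₁, h1, h2, fun F h5 h6 h7 => ?_⟩
  obtain ⟨hNF, hNE, hgal⟩ := inst_EL F L
  have hnor : Normal F (EL F L) := hgal.to_normal
  obtain ⟨e⟩ := exists_gal_equiv (h3.trans h5) h6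
  refine ⟨hNF, cont_of_rel e hsum (E.map (algebraMap K F)) inferInstance U fun X hX => ?_⟩
  have hne : X ≠ ⊥ := by
    rintro rfl
    have htop : ((⊥ : IntermediateField F (EL F L)).fixingSubgroup.map e.toMonoidHom) = ⊤ := by
      rw [IntermediateField.fixingSubgroup_bot, ← MonoidHom.range_eq_map]
      exact MonoidHom.range_eq_top.2 e.surjective
    rw [htop] at hX
    let eT : (⊤ : Subgroup (img M L)) ≃* img M L := Subgroup.topEquiv
    rcases hn ⊤ hX with h | ⟨p, hpl, hp, h⟩
    · exact hnc (isCyclic_of_surjective eT.toMonoidHom eT.surjective)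
    · have h8 : Hyp p (⊤ : Subgroup (img M L)) := hyp_of_isHyper h
      have h9 : Hyp p (img M L) := Hyp.of_injective eT.symm.toMonoidHom eT.symm.injective h8
      exact hnc (cyclic_of_two hp hl hpl h9 hHyp)
  obtain ⟨hn', hq⟩ := h4 F h5 h6 h7 (down X) (lt_down hne) (down_le X)
  have h8 := cont_congr (downEquiv X) hE hq
  have h9 : (E.map (algebraMap K F)).map (algebraMap F X) = E.map (algebraMap K X) := by
    rw [WeierstrassCurve.map_map, ← IsScalarTower.algebraMap_eq]
  rw [h9]
  exact h8

end

end Pool.Agent.V5helper60.HW
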