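import Pool.Agent.V5helper60.HW.Cont

/-!
# Relations between permutation characters that depend only on the group
-/

set_option autoImplicit false

namespace Pool.Agent.V5helper60.HW

open NumberField IsDedekindDomain
open Pool.Agent.H341R2.EC Pool.Agent.R433.MD

section
variable {G G' : Type} [Group G] [Group G']

theorem fx_congr (e : G ≃* G') (H : Subgroup G) (g : G) :
    fx (H.map e.toMonoidHom) (e g) = fx H g := by
  unfold fx
  congr 1
  symm
  let q : G ⧸ H ≃ G' ⧸ H.map e.toMonoidHom :=
    Quotient.congr e.toEquiv (fun a b => by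
      rw [QuotientGroup.leftRel_apply, QuotientGroup.leftRel_apply]
      change _ ↔ (e a)⁻¹ * e b ∈ _
      rw [← map_inv, ← map_mul]
      constructor
      · intro h
        exact ⟨_, h, rfl⟩
      · rintro ⟨x, hx, hxe⟩
        have h1 : x = a⁻¹ * b := e.injective hxe
        rw [← h1]
        exact hx)
  refine Nat.card_congr (Equiv.subtypeEquiv q fun c => ?_)
  obtain ⟨x, rfl⟩ := QuotientGroup.mk_surjective c
  have h1 : q (x : G ⧸ H) = ((e x : G') : G' ⧸ H.map e.toMonoidHom) := rfl
  have h2 : e g • q (x : G ⧸ H) = q (g • (x : G ⧸ H)) := by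
    change ((e g * e x : G') : G' ⧸ H.map e.toMonoidHom) =
      ((e (g * x) : G') : G' ⧸ H.map e.toMonoidHom)
    rw [map_mul]
  rw [h2]
  exact q.injective.eq_iff.symm

/-- **a relation in a finite group** -/
theorem exists_rel (G : Type) [Group G] [Finite G] (l : ℕ) :
    ∃ (k : ℕ) (n : Subgroup G → ℤ),
      (∀ H, n H ≠ 0 → IsCyclic H ∨ ∃ p, p ≠ l ∧ p.Prime ∧ IsHyper p H) ∧
      ∀ g, ∑ᶠ H, n H * fx H g = ((l ^ k : ℕ) : ℤ) := by
  obtain ⟨m, n, hm0, hmP, hn, hsum⟩ := perm_unit
    {H : Subgroup G | IsCyclic H ∨ ∃ p, p ≠ l ∧ p.Prime ∧ IsHyper p H}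
    (by
      intro H hH H' _
      have hle : H ⊓ H' ≤ H := inf_le_left
      rcases hH with h | ⟨p, hp, hpp, h⟩
      · exact Or.inl (isCyclic_of_injective (Subgroup.inclusion hle)
          (Subgroup.inclusion_injective hle))
      · exact Or.inr ⟨p, hp, hpp, h.le hle⟩)
    (by
      intro H hH x
      rcases hH with h | ⟨p, hp, hpp, h⟩
      · let e' := H.equivMapOfInjective (MulAut.conj x).toMonoidHom (MulAut.conj x).injective
        exact Or.inl (isCyclic_of_surjective e'.toMonoidHom e'.surjective)
      · exact Or.inr ⟨p, hp, hpp, h.conj x⟩) {p | p ≠ l}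
    (by
      intro g
      refine ⟨Subgroup.zpowers g, Or.inl inferInstance, ?_⟩
      rw [fx]
      intro h
      rw [Nat.cast_eq_zero, Nat.card_eq_zero] at h
      rcases h with h1 | h1
      · refine h1.false ⟨((1 : G) : G ⧸ Subgroup.zpowers g), ?_⟩
        change ((g * 1 : G) : G ⧸ Subgroup.zpowers g) = _
        rw [QuotientGroup.eq, mul_one, mul_one]
        exact Subgroup.inv_mem _ (Subgroup.mem_zpowers g)
      · exact h1.not_finite inferInstance)
    (by
      intro g p hp hpp
      obtain ⟨H, hH, h⟩ := hyper_count hpp g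
      exact ⟨H, Or.inr ⟨p, hp, hpp, hH⟩, h⟩)
  have hml : m = l ^ m.primeFactorsList.length :=
    Nat.eq_prime_pow_of_unique_prime_dvd hm0 (by
      intro d hd hdm
      by_contra hne
      exact hmP d hne hd hdm)
  refine ⟨m.primeFactorsList.length, n, fun H hH => ?_, fun g => ?_⟩
  · by_contra hcon
    exact hH (hn H hcon)
  · rw [hsum g, ← hml]

end

section
variable {F L : Type} [Field F] [NumberField F] [Field L] [NumberField L] [Algebra F L]
  [IsGalois F L]

/-- the relation, for a Galois group isomorphic to `G` -/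
theorem cont_of_rel {G : Type} [Group G] [Finite G] (e : Gal(L/F) ≃* G) {m : ℕ}
    {n : Subgroup G → ℤ} (hsum : ∀ g, ∑ᶠ H, n H * fx H g = (m : ℤ)) (E : WeierstrassCurve F)
    (hE : E.IsElliptic) (U : Set ℂ)
    (h : ∀ X : IntermediateField F L, n (X.fixingSubgroup.map e.toMonoidHom) ≠ 0 →
      Cont (E.map (algebraMap F X)) U 1) : Cont E U m := by
  classical
  let eX := IsGalois.intermediateFieldEquivSubgroup (F := F) (E := L)
  have hfinI : Finite (IntermediateField F L) := Finite.of_equiv _ eX.toEquiv.symm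
  let _ : Fintype (IntermediateField F L) := Fintype.ofFinite _
  let n' : IntermediateField F L → ℤ := fun X => n (X.fixingSubgroup.map e.toMonoidHom)
  refine gal_cont (Finset.univ.filter fun X => n' X ≠ 0) m n' ?_ E hE U ?_
  · intro g
    have h1 := hsum (e g)
    have h2 : ∑ X ∈ Finset.univ.filter (fun X => n' X ≠ 0), n' X * fx X.fixingSubgroup g =
        ∑ X, n' X * fx X.fixingSubgroup g := by
      refine Finset.sum_subset (Finset.filter_subset _ _) fun X _ hX => ?_
      rw [Finset.mem_filter, not_and_not_right] at hX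
      rw [hX (Finset.mem_univ X), zero_mul]
    rw [h2, ← h1, ← finsum_eq_sum_of_fintype]
    -- reindex
    let eS : IntermediateField F L ≃ Subgroup G :=
      (eX.toEquiv.trans OrderDual.ofDual).trans (MulEquiv.mapSubgroup e).toEquiv
    have h3 : ∀ X, eS X = X.fixingSubgroup.map e.toMonoidHom := fun X => rfl
    rw [← finsum_comp_equiv eS]
    refine finsum_congr fun X => ?_
    rw [h3, fx_congr]
  · intro X hX
    rw [Finset.mem_filter] at hX
    exact h X hX.2

end

end Pool.Agent.V5helper60.HW
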