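import Pool.Agent.V5helper60.HW.Fin

/-!
# A tower with cyclic groups belongs to one automorphism
-/

set_option autoImplicit false

namespace Pool.Agent.V5helper60.HW

open IntermediateField

section
variable {K Ω : Type} [Field K] [CharZero K] [Field Ω] [Algebra K Ω] [Normal K Ω]

omit [CharZero K] [Normal K Ω] in
theorem mem_iSup_of_mono {F : ℕ → IntermediateField K Ω} (hFm : Monotone F) (x : Ω) :
    x ∈ (⨆ n, F n : IntermediateField K Ω) ↔ ∃ n, x ∈ F n := by
  rw [← SetLike.mem_coe, IntermediateField.coe_iSup_of_directed hFm.directed_le, Set.mem_iUnion]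
  rfl

omit [CharZero K] [Normal K Ω] in
/-- powers of an automorphism on a normal subfield -/
theorem zpowers_restrict {L : IntermediateField K Ω} [Normal K L] (σ τ : Ω ≃ₐ[K] Ω) :
    AlgEquiv.restrictNormalHom L τ ∈ Subgroup.zpowers (AlgEquiv.restrictNormalHom L σ) ↔
      ∃ i : ℤ, ∀ x ∈ L, τ x = (σ ^ i) x := by
  constructor
  · rintro ⟨i, hi⟩
    refine ⟨i, fun x hx => ?_⟩
    simp only at hi
    rw [← map_zpow] at hi
    have h1 := AlgEquiv.restrictNormalHom_apply L τ ⟨x, hx⟩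
    have h2 := AlgEquiv.restrictNormalHom_apply L (σ ^ i) ⟨x, hx⟩
    rw [hi] at h2
    exact h1.symm.trans h2
  · rintro ⟨i, hi⟩
    refine ⟨i, ?_⟩
    simp only
    rw [← map_zpow]
    apply AlgEquiv.ext
    intro x
    apply Subtype.ext
    rw [AlgEquiv.restrictNormalHom_apply, AlgEquiv.restrictNormalHom_apply]
    exact (hi x x.2).symm

/-- one automorphism for the tower -/
theorem exists_sigma {L : ℕ → IntermediateField K Ω} (hmono : Monotone L)
    [hN : ∀ n, Normal K (L n)] [hfd : ∀ n, FiniteDimensional K (L n)] (hx : ∀ x, ∃ n, x ∈ L n)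
    {F : ℕ → IntermediateField K Ω} (hFm : Monotone F)
    (hF : ∀ n, IsCyclic (img (F n) (L n))) :
    ∃ σ : Ω ≃ₐ[K] Ω, (∀ x, (∃ n, x ∈ F n) ↔ σ x = x) ∧
      ∀ m, ∃ k, ∀ n, k ≤ n → ∀ τ ∈ (F n).fixingSubgroup, ∃ i : ℤ, ∀ x ∈ L m, τ x = (σ ^ i) x := by
  have hCZ : CharZero Ω := charZero_of_injective_algebraMap (algebraMap K Ω).injective
  have hGal : IsGalois K Ω := ⟨⟩
  set M : IntermediateField K Ω := ⨆ n, F n with hM
  have hcont : ∀ n, Continuous (AlgEquiv.restrictNormalHom (F := K) (K₁ := Ω) (L n)) := fun n =>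
    InfiniteGalois.restrictNormalHom_continuous (L n)
  have hMclosed : IsClosed (M.fixingSubgroup : Set (Ω ≃ₐ[K] Ω)) :=
    InfiniteGalois.fixingSubgroup_isClosed M
  let S : ℕ → Set (Ω ≃ₐ[K] Ω) := fun n => (M.fixingSubgroup : Set (Ω ≃ₐ[K] Ω)) ∩
    (AlgEquiv.restrictNormalHom (F := K) (K₁ := Ω) (L n)) ⁻¹'
      {g | img M (L n) ≤ Subgroup.zpowers g}
  have hSclosed : ∀ n, IsClosed (S n) := fun n =>
    hMclosed.inter ((isClosed_discrete _).preimage (hcont n))
  have hSne : ∀ n, (S n).Nonempty := by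
    intro n
    have h1 : IsCyclic (img M (L n)) := by
      have := hF n
      exact isCyclic_of_injective (imgLe (le_iSup F n) (L n)) (imgLe_injective _ _)
    obtain ⟨⟨g, hg⟩, hgen⟩ := h1
    obtain ⟨σ, hσ, rfl⟩ := hg
    refine ⟨σ, hσ, fun τ hτ => ?_⟩
    obtain ⟨i, hi⟩ := hgen ⟨τ, hτ⟩
    exact ⟨i, by
      have := congrArg Subtype.val hi
      simpa using this⟩
  have hSanti : ∀ n, S (n + 1) ⊆ S n := by
    intro n σ hσ
    refine ⟨hσ.1, ?_⟩
    rintro _ ⟨τ, hτ, rfl⟩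
    have h1 : AlgEquiv.restrictNormalHom (L (n + 1)) τ ∈
        Subgroup.zpowers (AlgEquiv.restrictNormalHom (L (n + 1)) σ) := hσ.2 ⟨τ, hτ, rfl⟩
    rw [zpowers_restrict] at h1
    change AlgEquiv.restrictNormalHom (L n) τ ∈
        Subgroup.zpowers (AlgEquiv.restrictNormalHom (L n) σ)
    rw [zpowers_restrict]
    obtain ⟨i, hi⟩ := h1
    exact ⟨i, fun x hx => hi x (hmono (Nat.le_succ n) hx)⟩
  obtain ⟨σ, hσ⟩ := IsCompact.nonempty_iInter_of_sequence_nonempty_isCompact_isClosed S hSanti hSne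
    (hSclosed 0).isCompact hSclosed
  rw [Set.mem_iInter] at hσ
  have hgen : ∀ (n : ℕ) (τ : Ω ≃ₐ[K] Ω), τ ∈ M.fixingSubgroup →
      ∃ i : ℤ, ∀ x ∈ L n, τ x = (σ ^ i) x := by
    intro n τ hτ
    rw [← zpowers_restrict]
    exact (hσ n).2 ⟨τ, hτ, rfl⟩
  refine ⟨σ, fun x => ?_, fun m => ?_⟩
  · rw [← mem_iSup_of_mono hFm, ← hM]
    constructor
    · intro hxM
      exact (hσ 0).1 ⟨x, hxM⟩
    · intro hσx
      rw [← InfiniteGalois.fixedField_fixingSubgroup M, IntermediateField.mem_fixedField_iff]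
      intro τ hτ
      obtain ⟨n, hn⟩ := hx x
      obtain ⟨i, hi⟩ := hgen n τ hτ
      rw [hi x hn]
      have h1 : σ ∈ MulAction.stabilizer (Ω ≃ₐ[K] Ω) x := hσx
      exact (Subgroup.zpow_mem _ h1 i : σ ^ i ∈ MulAction.stabilizer (Ω ≃ₐ[K] Ω) x)
  · -- the images over the fields of the tower become stable
    let D : ℕ → Set (Ω ≃ₐ[K] Ω) := fun n => ((F n).fixingSubgroup : Set (Ω ≃ₐ[K] Ω)) ∩
      (AlgEquiv.restrictNormalHom (F := K) (K₁ := Ω) (L m)) ⁻¹'
        {g | g ∉ Subgroup.zpowers (AlgEquiv.restrictNormalHom (L m) σ)}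
    have hDclosed : ∀ n, IsClosed (D n) := fun n =>
      (InfiniteGalois.fixingSubgroup_isClosed (F n)).inter
        ((isClosed_discrete _).preimage (hcont m))
    have hDanti : ∀ n, D (n + 1) ⊆ D n := fun n τ hτ =>
      ⟨IntermediateField.fixingSubgroup_le (hFm (Nat.le_succ n)) hτ.1, hτ.2⟩
    have hD : ∃ k, D k = ∅ := by
      by_contra hcon
      push Not at hcon
      obtain ⟨τ, hτ⟩ := IsCompact.nonempty_iInter_of_sequence_nonempty_isCompact_isClosed D hDanti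
        hcon (hDclosed 0).isCompact hDclosed
      rw [Set.mem_iInter] at hτ
      have h1 : τ ∈ M.fixingSubgroup := by
        rintro ⟨x, hxM⟩
        obtain ⟨n, hn⟩ := (mem_iSup_of_mono hFm x).1 hxM
        exact (hτ n).1 ⟨x, hn⟩
      exact (hτ 0).2 ((zpowers_restrict σ τ).2 (hgen m τ h1))
    obtain ⟨k, hk⟩ := hD
    refine ⟨k, fun n hn τ hτ => ?_⟩
    rw [← zpowers_restrict]
    by_contra hcon
    have h1 : τ ∈ D k := ⟨IntermediateField.fixingSubgroup_le (hFm hn) hτ, hcon⟩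
    rw [hk] at h1
    exact h1

end

end Pool.Agent.V5helper60.HW
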