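import Pool.Agent.TH954.STor
import Pool.Agent.Y700.VC

/-!
# The number of torsion points of an elliptic curve over an algebraically closed field
-/

set_option autoImplicit false

namespace Pool.Agent.V5helper60.HW

open WeierstrassCurve Pool.Agent.H901R3.MS

section
variable {F : Type} [Field F]

theorem vr [CharZero F] (W : WeierstrassCurve F) :
    Pool.Agent.Y700.VR (CV (-27 * W.c₄) (-54 * W.c₆)) W 6 (3 * W.b₂) (3 * W.a₁) (108 * W.a₃) where
  u0 := by norm_num
  e1 := by
    simp only [CV]
    ring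
  e2 := by
    simp only [CV, WeierstrassCurve.b₂]
    ring
  e3 := by
    simp only [CV]
    ring
  e4 := by
    simp only [CV, WeierstrassCurve.c₄, WeierstrassCurve.b₂, WeierstrassCurve.b₄]
    ring
  e6 := by
    simp only [CV, WeierstrassCurve.c₄, WeierstrassCurve.c₆, WeierstrassCurve.b₂,
      WeierstrassCurve.b₄, WeierstrassCurve.b₆]
    ring

open scoped Classical in
theorem card_tor [IsAlgClosed F] [CharZero F] (W : WeierstrassCurve F) (hW : W.Δ ≠ 0) {n : ℕ}
    (hn : 1 ≤ n) :
    {P : W.toAffine.Point | n • P = 0}.Finite ∧ {P : W.toAffine.Point | n • P = 0}.ncard < 2 * n ^ 2 := by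
  have hv := vr W
  have hD : Disc (-27 * W.c₄) (-54 * W.c₆) := by
    unfold Disc
    intro h
    have h1 : (CV (-27 * W.c₄) (-54 * W.c₆)).Δ = 0 := by
      have h2 : (4 : F) * (-27 * W.c₄) ^ 3 + 27 * (-54 * W.c₆) ^ 2 = 0 :=
        (mul_eq_zero.1 h).resolve_left two_ne_zero
      simp only [CV, WeierstrassCurve.Δ, WeierstrassCurve.b₂, WeierstrassCurve.b₄,
        WeierstrassCurve.b₆, WeierstrassCurve.b₈]
      linear_combination (-16) * h2
    rw [hv.delta] at h1
    exact mul_ne_zero (pow_ne_zero _ hv.u0) hW h1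
  let e : W.toAffine.Point ≃+ Pt (-27 * W.c₄) (-54 * W.c₆) := hv.equiv hW
  have himg : e '' {P : W.toAffine.Point | n • P = 0} =
      {P : Pt (-27 * W.c₄) (-54 * W.c₆) | n • P = 0} := by
    ext P
    constructor
    · rintro ⟨Q, hQ, rfl⟩
      change n • e Q = 0
      rw [← map_nsmul, (hQ : n • Q = 0), map_zero]
    · intro hP
      refine ⟨e.symm P, ?_, e.apply_symm_apply P⟩
      change n • e.symm P = 0
      rw [← map_nsmul, (hP : n • P = 0), map_zero]
  have h1 := Pool.Agent.TH954.torCount F _ _ hD n hn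
  have h2 := Pool.Agent.TH954.card_torsion_lt hD hn
  rw [← himg] at h1 h2
  exact ⟨Set.Finite.of_finite_image h1.1 e.injective.injOn, by
    rwa [Set.ncard_image_of_injective _ e.injective] at h2⟩

end

end Pool.Agent.V5helper60.HW
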