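import Pool.Agent.V5helper60.HW.Grp

/-!
# Towers of number fields and the Galois groups of their union
-/

set_option autoImplicit false

namespace Pool.Agent.V5helper60.HW

open IntermediateField

section
variable {K Ω : Type} [Field K] [Field Ω] [Algebra K Ω]

/-- the automorphisms of `L` induced by the automorphisms of `Ω` over `F` -/
noncomputable def img (F L : IntermediateField K Ω) [Normal K L] : Subgroup (L ≃ₐ[K] L) :=
  F.fixingSubgroup.map (AlgEquiv.restrictNormalHom L)

/-- the restriction to `L` of the automorphisms of `Ω` over `F` -/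
noncomputable def rst (F L : IntermediateField K Ω) [Normal K L] : F.fixingSubgroup →* img F L :=
  (AlgEquiv.restrictNormalHom L).subgroupMap F.fixingSubgroup

theorem rst_surjective (F L : IntermediateField K Ω) [Normal K L] :
    Function.Surjective (rst F L) := by
  rintro ⟨_, σ, hσ, rfl⟩
  exact ⟨⟨σ, hσ⟩, rfl⟩

theorem mem_ker_rst (F L : IntermediateField K Ω) [Normal K L] (σ : F.fixingSubgroup) :
    σ ∈ (rst F L).ker ↔ ∀ x ∈ L, (σ : Ω ≃ₐ[K] Ω) x = x := by
  rw [MonoidHom.mem_ker]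
  constructor
  · intro h x hx
    have h1 : AlgEquiv.restrictNormalHom L (σ : Ω ≃ₐ[K] Ω) = 1 := congrArg Subtype.val h
    have h2 := AlgEquiv.restrictNormalHom_apply L (σ : Ω ≃ₐ[K] Ω) ⟨x, hx⟩
    rw [h1] at h2
    exact h2.symm
  · intro h
    apply Subtype.ext
    apply AlgEquiv.ext
    intro x
    apply Subtype.ext
    have h2 := AlgEquiv.restrictNormalHom_apply L (σ : Ω ≃ₐ[K] Ω) x
    change ((AlgEquiv.restrictNormalHom L (σ : Ω ≃ₐ[K] Ω)) x : Ω) = x
    rw [h2]
    exact h _ x.2

/-- the inclusion of images -/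
noncomputable def imgLe {F F' : IntermediateField K Ω} (h : F ≤ F') (L : IntermediateField K Ω)
    [Normal K L] : img F' L →* img F L :=
  Subgroup.inclusion (Subgroup.map_mono (IntermediateField.fixingSubgroup_le h))

theorem imgLe_injective {F F' : IntermediateField K Ω} (h : F ≤ F') (L : IntermediateField K Ω)
    [Normal K L] : Function.Injective (imgLe h L) := Subgroup.inclusion_injective _

/-- the normal finite subfields of a countable algebraic extension -/
theorem exists_layers [Normal K Ω] [Countable Ω] : ∃ L : ℕ → IntermediateField K Ω, Monotone L ∧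
    (∀ n, Normal K (L n)) ∧ (∀ n, FiniteDimensional K (L n)) ∧ ∀ x, ∃ n, x ∈ L n := by
  obtain ⟨e, he⟩ := exists_surjective_nat Ω
  have halg : Algebra.IsAlgebraic K Ω := Normal.toIsAlgebraic
  refine ⟨fun n => ⨆ i : Fin (n + 1), normalClosure K K⟮e i⟯ Ω, ?_, ?_, ?_, ?_⟩
  · intro m n hmn
    refine iSup_le fun i => ?_
    exact le_iSup (fun j : Fin (n + 1) => normalClosure K K⟮e j⟯ Ω) ⟨i, by omega⟩
  · intro n
    exact IntermediateField.normal_iSup K Ω _
  · intro n
    have h : ∀ i : Fin (n + 1), FiniteDimensional K (normalClosure K K⟮e i⟯ Ω) := by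
      intro i
      have : FiniteDimensional K K⟮e i⟯ :=
        IntermediateField.adjoin.finiteDimensional (Algebra.IsIntegral.isIntegral _)
      exact normalClosure.is_finiteDimensional K _ Ω
    exact IntermediateField.finiteDimensional_iSup_of_finite
  · intro x
    obtain ⟨n, rfl⟩ := he x
    refine ⟨n, ?_⟩
    have h1 : e n ∈ normalClosure K K⟮e n⟯ Ω :=
      (IntermediateField.le_normalClosure K⟮e n⟯) (IntermediateField.mem_adjoin_simple_self K (e n))
    exact (le_iSup (fun j : Fin (n + 1) => normalClosure K K⟮e j⟯ Ω) ⟨n, by omega⟩) h1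

/-- the tower -/
theorem exists_tower {L : ℕ → IntermediateField K Ω} (hmono : Monotone L)
    (hN : ∀ n, Normal K (L n)) (Q : IntermediateField K Ω → Prop)
    (R : ∀ _ L : IntermediateField K Ω, Normal K L → Prop)
    (h0 : ¬ Q ⊥)
    (hstep : ∀ (n : ℕ) (F : IntermediateField K Ω), F ≤ L n → ¬ Q F →
      ∃ F', F ≤ F' ∧ F' ≤ L n ∧ ¬ Q F' ∧ R F' (L n) (hN n)) :
    ∃ F : ℕ → IntermediateField K Ω, F 0 = ⊥ ∧ Monotone F ∧ (∀ n, F n ≤ L n) ∧ (∀ n, ¬ Q (F n)) ∧
      ∀ n, R (F (n + 1)) (L (n + 1)) (hN (n + 1)) := by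
  have hst : ∀ (n : ℕ) (X : {F : IntermediateField K Ω // F ≤ L n ∧ ¬ Q F}),
      ∃ Y : {F : IntermediateField K Ω // F ≤ L (n + 1) ∧ ¬ Q F}, X.1 ≤ Y.1 ∧
        R Y.1 (L (n + 1)) (hN (n + 1)) := by
    intro n X
    obtain ⟨F', h1, h2, h3, h4⟩ := hstep (n + 1) X.1 (X.2.1.trans (hmono (Nat.le_succ n))) X.2.2
    exact ⟨⟨F', h2, h3⟩, h1, h4⟩
  choose f hf1 hf2 using hst
  let X : ∀ n : ℕ, {F : IntermediateField K Ω // F ≤ L n ∧ ¬ Q F} := fun n =>
    Nat.rec ⟨⊥, bot_le, h0⟩ (fun n X => f n X) n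
  refine ⟨fun n => (X n).1, rfl, ?_, fun n => (X n).2.1, fun n => (X n).2.2, fun n => ?_⟩
  · exact monotone_nat_of_le_succ fun n => hf1 n (X n)
  · exact hf2 n (X n)

variable [CharZero K]

omit [CharZero K] in
/-- the Galois groups over the union of the tower -/
theorem gal_union {L : ℕ → IntermediateField K Ω} (hmono : Monotone L)
    [hN : ∀ n, Normal K (L n)] (hx : ∀ x, ∃ n, x ∈ L n) [Normal K Ω]
    (M : IntermediateField K Ω) (N : IntermediateField M Ω) [FiniteDimensional M N] [IsGalois M N] :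
    ∃ m : ℕ, ∀ n, m ≤ n → ∃ (g : M.fixingSubgroup →* (N ≃ₐ[M] N)), Function.Surjective g ∧
      (rst M (L n)).ker ≤ g.ker := by
  have hNM : Normal M Ω := Normal.tower_top_of_normal K M Ω
  let b := Module.finBasis M N
  choose k hk using fun i => hx (b i : Ω)
  refine ⟨Finset.univ.sup k, fun n hn => ?_⟩
  have hb : ∀ i, (b i : Ω) ∈ L n := fun i =>
    hmono ((Finset.le_sup (Finset.mem_univ i)).trans hn) (hk i)
  let g : M.fixingSubgroup →* (N ≃ₐ[M] N) :=
    (AlgEquiv.restrictNormalHom N).comp (IntermediateField.fixingSubgroupEquiv M).toMonoidHom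
  have hg : ∀ (σ : M.fixingSubgroup) (x : N), (g σ x : Ω) = (σ : Ω ≃ₐ[K] Ω) x := by
    intro σ x
    exact AlgEquiv.restrictNormalHom_apply N (IntermediateField.fixingSubgroupEquiv M σ) x
  refine ⟨g, ?_, ?_⟩
  · exact (AlgEquiv.restrictNormalHom_surjective Ω).comp
      (IntermediateField.fixingSubgroupEquiv M).surjective
  · intro σ hσ
    rw [mem_ker_rst] at hσ
    rw [MonoidHom.mem_ker]
    apply AlgEquiv.ext
    intro x
    have h1 : ∀ i, g σ (b i) = b i := fun i => Subtype.ext (by rw [hg, hσ _ (hb i)])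
    have h2 : (g σ).toLinearMap = LinearMap.id := b.ext fun i => h1 i
    exact LinearMap.congr_fun h2 x

omit [CharZero K] in
/-- a smaller field on top -/
theorem img_quot {q : ℕ} {F : IntermediateField K Ω} {L L' : IntermediateField K Ω} [Normal K L]
    [Normal K L'] (h : L ≤ L') (hq : Hyp q (img F L')) : Hyp q (img F L) := by
  refine Hyp.of_ker_le (rst F L') (rst_surjective _ _) (rst F L) (rst_surjective _ _) ?_ hq
  intro σ hσ
  rw [mem_ker_rst] at hσ ⊢
  exact fun x hx => hσ x (h hx)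

omit [CharZero K] in
theorem img_sub {q : ℕ} {F F' : IntermediateField K Ω} (h : F ≤ F') {L : IntermediateField K Ω}
    [Normal K L] [FiniteDimensional K L] (hq : Hyp q (img F L)) : Hyp q (img F' L) :=
  Hyp.of_injective (imgLe h L) (imgLe_injective _ _) hq

omit [CharZero K] in
/-- one prime number for all the layers, along a subsequence -/
theorem uniform {L : ℕ → IntermediateField K Ω} (hmono : Monotone L)
    [hN : ∀ n, Normal K (L n)] [hfd : ∀ n, FiniteDimensional K (L n)]
    {F : ℕ → IntermediateField K Ω} (hFm : Monotone F)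
    (hF : ∀ n, ∃ l : ℕ, l.Prime ∧ Hyp l (img (F (n + 1)) (L (n + 1)))) :
    ∃ (l : ℕ) (φ : ℕ → ℕ), l.Prime ∧ Monotone φ ∧ (∀ n, n ≤ φ n) ∧
      ∀ n, Hyp l (img (F (φ n)) (L n)) := by
  choose l hl hHyp using hF
  have key : ∃ q : ℕ, q.Prime ∧ ∀ n, ∃ m, Hyp q (img (F m) (L n)) := by
    by_cases hcase : ∃ q, ∀ n, ∃ m, n ≤ m ∧ l m = q
    · obtain ⟨q, hq⟩ := hcase
      obtain ⟨m0, -, hm0⟩ := hq 0
      refine ⟨q, hm0 ▸ hl m0, fun n => ?_⟩
      obtain ⟨m, hm, hlm⟩ := hq n
      exact ⟨m + 1, img_quot (hmono (by omega : n ≤ m + 1)) (hlm ▸ hHyp m)⟩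
    · push Not at hcase
      choose b hb using hcase
      refine ⟨2, Nat.prime_two, fun n => ?_⟩
      set c := Nat.card (L n ≃ₐ[K] L n) with hc
      set m := max n ((Finset.range (c + 1)).sup b) with hm
      have h4 : c < l m := by
        by_contra h5
        push Not at h5
        have h6 : b (l m) ≤ m := by
          refine le_trans ?_ (le_max_right _ _)
          exact Finset.le_sup (f := b) (Finset.mem_range.2 (Nat.lt_succ_of_le h5))
        exact hb (l m) m h6 rfl
      have h5 : Hyp (l m) (img (F (m + 1)) (L n)) :=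
        img_quot (hmono (by omega : n ≤ m + 1)) (hHyp m)
      have h6 : Nat.card (img (F (m + 1)) (L n)) < l m :=
        lt_of_le_of_lt (Nat.card_le_card_of_injective _ (Subgroup.subtype_injective _)) h4
      exact ⟨m + 1, Hyp.of_cyclic Nat.prime_two (Hyp.cyclic (hl m) h6 h5)⟩
  obtain ⟨q, hq, hall⟩ := key
  choose m hm using hall
  refine ⟨q, fun n => n + ∑ i ∈ Finset.range (n + 1), m i, hq, ?_, fun n => by simp, fun n => ?_⟩
  · intro a b hab
    have h1 : ∑ i ∈ Finset.range (a + 1), m i ≤ ∑ i ∈ Finset.range (b + 1), m i :=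
      Finset.sum_le_sum_of_subset (Finset.range_subset_range.2 (by omega))
    simp only
    omega
  · have h1 : m n ≤ ∑ i ∈ Finset.range (n + 1), m i :=
      Finset.single_le_sum (fun i _ => Nat.zero_le _) (Finset.self_mem_range_succ n)
    exact img_sub (hFm (show m n ≤ n + ∑ i ∈ Finset.range (n + 1), m i by omega)) (hm n)

omit [CharZero K] in
/-- the union of a tower of fields with hyperelementary groups -/
theorem hyper_union {L : ℕ → IntermediateField K Ω} (hmono : Monotone L)
    [hN : ∀ n, Normal K (L n)] [hfd : ∀ n, FiniteDimensional K (L n)] (hx : ∀ x, ∃ n, x ∈ L n)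
    [Normal K Ω] {F : ℕ → IntermediateField K Ω} {l : ℕ}
    (hF : ∀ n, Hyp l (img (F n) (L n)))
    (N : IntermediateField (⨆ n, F n : IntermediateField K Ω) Ω)
    [FiniteDimensional (⨆ n, F n : IntermediateField K Ω) N]
    [IsGalois (⨆ n, F n : IntermediateField K Ω) N] :
    Hyp l (N ≃ₐ[(⨆ n, F n : IntermediateField K Ω)] N) := by
  obtain ⟨m, hm⟩ := gal_union hmono hx (⨆ n, F n : IntermediateField K Ω) N
  obtain ⟨g, hg1, hg2⟩ := hm m le_rfl
  exact Hyp.of_ker_le (rst _ (L m)) (rst_surjective _ _) g hg1 hg2 (img_sub (le_iSup F m) (hF m))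

omit [CharZero K] in
/-- the image of a representation that factors through a layer -/
theorem hyp_range {l : ℕ} {F L : IntermediateField K Ω} [Normal K L] {B : Type*} [Group B]
    (ρ : (Ω ≃ₐ[K] Ω) →* B) (h : ∀ σ ∈ L.fixingSubgroup, ρ σ = 1) (hq : Hyp l (img F L)) :
    Hyp l (ρ.comp F.fixingSubgroup.subtype).range := by
  refine Hyp.of_ker_le (rst F L) (rst_surjective _ _)
    (ρ.comp F.fixingSubgroup.subtype).rangeRestrict (MonoidHom.rangeRestrict_surjective _) ?_ hq
  intro σ hσ
  rw [mem_ker_rst] at hσ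
  exact Subtype.ext (h σ fun x => hσ x x.2)

/-- quotients of cyclic groups, in terms of kernels -/
theorem cyclic_of_ker_le {Γ A B : Type*} [Group Γ] [Group A] [Group B] (f : Γ →* A)
    (g : Γ →* B) (hf : Function.Surjective f) (hg : Function.Surjective g) (h : f.ker ≤ g.ker)
    (hA : IsCyclic A) : IsCyclic B := by
  obtain ⟨c, hc⟩ := hA
  obtain ⟨γ, rfl⟩ := hf c
  refine ⟨g γ, fun b => ?_⟩
  obtain ⟨x, rfl⟩ := hg b
  obtain ⟨i, hi⟩ := hc (f x)
  simp only at hi
  refine ⟨i, ?_⟩
  have h1 : x⁻¹ * γ ^ i ∈ f.ker := by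
    rw [MonoidHom.mem_ker, map_mul, map_inv, map_zpow, hi, inv_mul_cancel]
  have h2 := h h1
  rw [MonoidHom.mem_ker, map_mul, map_inv, map_zpow, inv_mul_eq_one] at h2
  exact h2.symm

omit [CharZero K] in
/-- the image of a representation that factors through a layer -/
theorem cyclic_range {F L : IntermediateField K Ω} [Normal K L] {B : Type*} [Group B]
    (ρ : (Ω ≃ₐ[K] Ω) →* B) (h : ∀ σ ∈ L.fixingSubgroup, ρ σ = 1) (hq : IsCyclic (img F L)) :
    IsCyclic (ρ.comp F.fixingSubgroup.subtype).range := by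
  refine cyclic_of_ker_le (rst F L)
    (ρ.comp F.fixingSubgroup.subtype).rangeRestrict (rst_surjective _ _)
    (MonoidHom.rangeRestrict_surjective _) ?_ hq
  intro σ hσ
  rw [mem_ker_rst] at hσ
  exact Subtype.ext (h σ fun x => hσ x x.2)

omit [CharZero K] in
/-- the union of a tower of fields with cyclic groups -/
theorem cyclic_union {L : ℕ → IntermediateField K Ω} (hmono : Monotone L)
    [hN : ∀ n, Normal K (L n)] (hx : ∀ x, ∃ n, x ∈ L n)
    [Normal K Ω] {F : ℕ → IntermediateField K Ω}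
    (hF : ∀ n, IsCyclic (img (F n) (L n)))
    (N : IntermediateField (⨆ n, F n : IntermediateField K Ω) Ω)
    [FiniteDimensional (⨆ n, F n : IntermediateField K Ω) N]
    [IsGalois (⨆ n, F n : IntermediateField K Ω) N] :
    IsCyclic (N ≃ₐ[(⨆ n, F n : IntermediateField K Ω)] N) := by
  obtain ⟨m, hm⟩ := gal_union hmono hx (⨆ n, F n : IntermediateField K Ω) N
  obtain ⟨g, hg1, hg2⟩ := hm m le_rfl
  have h1 : IsCyclic (img (⨆ n, F n : IntermediateField K Ω) (L m)) := by
    have := hF m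
    exact isCyclic_of_injective (imgLe (le_iSup F m) (L m)) (imgLe_injective _ _)
  exact cyclic_of_ker_le (rst _ (L m)) g (rst_surjective _ _) hg1 hg2 h1

end

end Pool.Agent.V5helper60.HW
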