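import Pool.Agent.V5helper60.HW.Tor
import Pool.Agent.V5helper60.HW.Image
import Pool.Agent.V5helper60.HW.Tower

/-!
# The Galois action on the points of prime order over the fields of the tower
-/

set_option autoImplicit false

namespace Pool.Agent.V5helper60.HW

open scoped Classical in
/-- the group of the points over `Ω` -/
abbrev Pts {K : Type} [Field K] (E : WeierstrassCurve K) (Ω : Type) [Field Ω] [Algebra K Ω] : Type :=
  (E.baseChange Ω).toAffine.Point

section
variable {K Ω : Type} [Field K] [Field Ω] [Algebra K Ω] (E : WeierstrassCurve K)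

open scoped Classical in
/-- the action of the Galois group on the points -/
noncomputable def act (σ : Ω ≃ₐ[K] Ω) : Pts E Ω →+ Pts E Ω :=
  WeierstrassCurve.Affine.Point.map (W' := E.toAffine) (σ : Ω →ₐ[K] Ω)

theorem act_one (P : Pts E Ω) : act E (1 : Ω ≃ₐ[K] Ω) P = P := by
  classical
  rcases P with _ | ⟨x, y, h⟩ <;> rfl

theorem act_mul (σ τ : Ω ≃ₐ[K] Ω) (P : Pts E Ω) : act E (σ * τ) P = act E σ (act E τ P) := by
  classical
  rcases P with _ | ⟨x, y, h⟩ <;> rfl

theorem act_fix (σ : Ω ≃ₐ[K] Ω) {x y : Ω} (h : (E.baseChange Ω).toAffine.Nonsingular x y)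
    (hx : σ x = x) (hy : σ y = y) :
    act E σ (WeierstrassCurve.Affine.Point.some x y h : Pts E Ω) =
      (WeierstrassCurve.Affine.Point.some x y h : Pts E Ω) := by
  classical
  unfold act
  rw [WeierstrassCurve.Affine.Point.map_some]
  simp only [WeierstrassCurve.Affine.Point.some.injEq]
  exact ⟨hx, hy⟩

open scoped Classical in
/-- the points of order dividing `n` -/
noncomputable def tor (n : ℕ) : AddSubgroup (Pts E Ω) where
  carrier := {P | n • P = 0}
  add_mem' := by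
    intro P Q hP hQ
    change n • (P + Q) = 0
    rw [nsmul_add, (hP : n • P = 0), (hQ : n • Q = 0), add_zero]
  zero_mem' := nsmul_zero n
  neg_mem' := by
    intro P hP
    change n • (-P) = 0
    rw [smul_neg, (hP : n • P = 0), neg_zero]

open scoped Classical in
theorem mem_tor {n : ℕ} {P : Pts E Ω} : P ∈ tor E (Ω := Ω) n ↔ n • P = 0 := Iff.rfl

open scoped Classical in
theorem act_mem_tor {n : ℕ} (σ : Ω ≃ₐ[K] Ω) {P : Pts E Ω} (hP : P ∈ tor E (Ω := Ω) n) :
    act E σ P ∈ tor E (Ω := Ω) n := by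
  rw [mem_tor] at hP ⊢
  rw [← map_nsmul, hP, map_zero]

open scoped Classical in
noncomputable instance torModule (n : ℕ) : Module (ZMod n) (tor E (Ω := Ω) n) :=
  AddCommGroup.zmodModule fun P => Subtype.ext P.2

open scoped Classical in
/-- the action on the points of order dividing `n` -/
noncomputable def rho (n : ℕ) : (Ω ≃ₐ[K] Ω) →* (tor E (Ω := Ω) n ≃ₗ[ZMod n] tor E (Ω := Ω) n) where
  toFun σ :=
    { (AddMonoidHom.toZModLinearMap n
        (((act E σ).comp (tor E (Ω := Ω) n).subtype).codRestrict (tor E (Ω := Ω) n)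
          fun P => act_mem_tor E σ P.2)) with
      invFun := fun P => ⟨act E σ⁻¹ P.1, act_mem_tor E σ⁻¹ P.2⟩
      left_inv := by
        intro P
        apply Subtype.ext
        change act E σ⁻¹ (act E σ P.1) = P.1
        rw [← act_mul, inv_mul_cancel, act_one]
      right_inv := by
        intro P
        apply Subtype.ext
        change act E σ (act E σ⁻¹ P.1) = P.1
        rw [← act_mul, mul_inv_cancel, act_one] }
  map_one' := by
    ext P
    exact act_one E P.1
  map_mul' σ τ := by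
    ext P
    exact act_mul E σ τ P.1

open scoped Classical in
theorem rho_apply (n : ℕ) (σ : Ω ≃ₐ[K] Ω) (P : tor E (Ω := Ω) n) :
    ((rho E n σ P : tor E (Ω := Ω) n) : Pts E Ω) = act E σ P.1 := rfl


variable [CharZero K] [IsAlgClosed Ω]

open scoped Classical in
theorem tor_finite (hE : E.Δ ≠ 0) {n : ℕ} (hn : 1 ≤ n) : Finite (tor E (Ω := Ω) n) ∧
    Nat.card (tor E (Ω := Ω) n) < 2 * n ^ 2 := by
  have hCZ : CharZero Ω := charZero_of_injective_algebraMap (algebraMap K Ω).injective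
  have hΔ : (E.baseChange Ω).Δ ≠ 0 := by
    rw [WeierstrassCurve.baseChange, WeierstrassCurve.map_Δ]
    exact (map_ne_zero _).2 hE
  obtain ⟨h1, h2⟩ := card_tor (E.baseChange Ω) hΔ hn
  exact ⟨h1.to_subtype, h2⟩

open scoped Classical in
theorem tor_finrank (hE : E.Δ ≠ 0) {p : ℕ} [hp : Fact p.Prime] :
    Module.finrank (ZMod p) (tor E (Ω := Ω) p) ≤ 2 := by
  obtain ⟨h1, h2⟩ := tor_finite (Ω := Ω) E hE hp.out.one_le
  have h3 : Nat.card (tor E (Ω := Ω) p) = p ^ Module.finrank (ZMod p) (tor E (Ω := Ω) p) := by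
    rw [Module.natCard_eq_pow_finrank (K := ZMod p), Nat.card_zmod]
  by_contra hcon
  push Not at hcon
  have h4 : p ^ 3 ≤ p ^ Module.finrank (ZMod p) (tor E (Ω := Ω) p) :=
    Nat.pow_le_pow_right hp.out.pos hcon
  have h5 : 2 * p ^ 2 ≤ p ^ 3 := by
    have := hp.out.two_le
    calc 2 * p ^ 2 ≤ p * p ^ 2 := Nat.mul_le_mul_right _ this
      _ = p ^ 3 := by ring
  rw [h3] at h2
  omega

/-- the coordinates of the torsion points lie in a layer -/
theorem tor_layer (hE : E.Δ ≠ 0) {n : ℕ} (hn : 1 ≤ n) {L : ℕ → IntermediateField K Ω}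
    (hmono : Monotone L) (hx : ∀ x, ∃ n, x ∈ L n) :
    ∃ m : ℕ, ∀ k, m ≤ k → ∀ σ ∈ (L k).fixingSubgroup, rho E n σ = 1 := by
  classical
  obtain ⟨h1, -⟩ := tor_finite (Ω := Ω) E hE hn
  have h2 : ∀ P : tor E (Ω := Ω) n, ∃ m : ℕ, ∀ k, m ≤ k → ∀ σ ∈ (L k).fixingSubgroup,
      act E σ P.1 = P.1 := by
    rintro ⟨P, hP⟩
    rcases P with _ | ⟨x, y, h⟩
    · exact ⟨0, fun k _ σ _ => map_zero _⟩
    · obtain ⟨i, hi⟩ := hx x
      obtain ⟨j, hj⟩ := hx y
      refine ⟨max i j, fun k hk σ hσ => ?_⟩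
      exact act_fix E σ h (hσ ⟨x, hmono ((le_max_left i j).trans hk) hi⟩)
        (hσ ⟨y, hmono ((le_max_right i j).trans hk) hj⟩)
  choose m hm using h2
  let _ : Fintype (tor E (Ω := Ω) n) := Fintype.ofFinite _
  refine ⟨Finset.univ.sup m, fun k hk σ hσ => ?_⟩
  ext P
  exact hm P k ((Finset.le_sup (Finset.mem_univ P)).trans hk) σ hσ

open scoped Classical in
/-- **The points of order `p` over the fields of the tower.** -/
theorem tor_tower (hE : E.Δ ≠ 0) {p : ℕ} (hp : p.Prime) [Normal K Ω]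
    {L : ℕ → IntermediateField K Ω} (hmono : Monotone L) [hN : ∀ n, Normal K (L n)]
    [hfd : ∀ n, FiniteDimensional K (L n)] (hx : ∀ x, ∃ n, x ∈ L n)
    {F : ℕ → IntermediateField K Ω} (hfF : ∀ n, FiniteDimensional K (F n)) {l : ℕ} (hl : l.Prime)
    (hF : ∀ n, Hyp l (img (F n) (L n))) :
    ∃ m : ℕ, ∀ n, m ≤ n →
      (∃ C : AddSubgroup (Pts E Ω), Nat.card C = p ∧
        ∀ σ ∈ (F n).fixingSubgroup, ∀ P ∈ C, act E σ P ∈ C) ∨
      (∃ F' : IntermediateField K Ω, F n ≤ F' ∧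
        Module.finrank K F' ≤ 2 * Module.finrank K (F n) ∧
        ∀ σ ∈ F'.fixingSubgroup, ∀ τ ∈ F'.fixingSubgroup, ∀ P ∈ tor E (Ω := Ω) p,
          act E σ (act E τ P) = act E τ (act E σ P)) := by
  classical
  have hFp : Fact p.Prime := ⟨hp⟩
  have hCZ : CharZero Ω := charZero_of_injective_algebraMap (algebraMap K Ω).injective
  have hGal : IsGalois K Ω := ⟨⟩
  obtain ⟨hfin, -⟩ := tor_finite (Ω := Ω) E hE hp.one_le
  obtain ⟨m, hm⟩ := tor_layer (Ω := Ω) E hE hp.one_le hmono hx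
  refine ⟨m, fun n hk => ?_⟩
  set Γ := (F n).fixingSubgroup with hΓ
  let ρ : Γ →* (tor E (Ω := Ω) p ≃ₗ[ZMod p] tor E (Ω := Ω) p) := (rho E p).comp Γ.subtype
  have hρ : Hyp l ρ.range := hyp_range (rho E p) (hm n hk) (hF n)
  rcases hyper_plane hl (tor_finrank E hE) ρ hρ with ⟨W, hW, hW'⟩ | ⟨A, hA0, hA2, hker, hAc⟩
  · left
    refine ⟨W.toAddSubgroup.map (tor E (Ω := Ω) p).subtype, ?_, ?_⟩
    · have h1 : Nat.card W = p := by
        rw [Module.natCard_eq_pow_finrank (K := ZMod p), Nat.card_zmod, hW, pow_one]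
      have h2 : Nat.card (W.toAddSubgroup.map (tor E (Ω := Ω) p).subtype) =
          Nat.card W.toAddSubgroup :=
        (Nat.card_congr (W.toAddSubgroup.equivMapOfInjective _
          (AddSubgroup.subtype_injective _)).toEquiv).symm
      rw [h2]
      exact h1
    · rintro σ hσ _ ⟨P, hP, rfl⟩
      exact ⟨ρ ⟨σ, hσ⟩ P, hW' ⟨σ, hσ⟩ P hP, rfl⟩
  · right
    -- the field fixed by `A`
    let B : Subgroup (Ω ≃ₐ[K] Ω) := A.map Γ.subtype
    have hLB : (L n).fixingSubgroup ⊓ Γ ≤ B := by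
      rintro σ ⟨h1, h2⟩
      refine ⟨⟨σ, h2⟩, hker ?_, rfl⟩
      exact hm n hk σ h1
    have hopen : IsOpen (B : Set (Ω ≃ₐ[K] Ω)) := by
      have h1 : IsOpen ((L n).fixingSubgroup : Set (Ω ≃ₐ[K] Ω)) :=
        IntermediateField.fixingSubgroup_isOpen _
      have h2 : IsOpen (Γ : Set (Ω ≃ₐ[K] Ω)) := IntermediateField.fixingSubgroup_isOpen _
      exact Subgroup.isOpen_mono hLB (h1.inter h2)
    have hclosed : IsClosed (B : Set (Ω ≃ₐ[K] Ω)) := Subgroup.isClosed_of_isOpen _ hopen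
    set F' : IntermediateField K Ω := IntermediateField.fixedField B with hF'
    have hfix : F'.fixingSubgroup = B :=
      InfiniteGalois.fixingSubgroup_fixedField ⟨B, hclosed⟩
    have hBΓ : B ≤ Γ := by
      rintro _ ⟨σ, -, rfl⟩
      exact σ.2
    refine ⟨F', ?_, ?_, ?_⟩
    · intro x hx σ
      have h1 : (σ : Ω ≃ₐ[K] Ω) ∈ Γ := hBΓ σ.2
      exact h1 ⟨x, hx⟩
    · rw [IntermediateField.finrank_eq_fixingSubgroup_index, hfix,
        IntermediateField.finrank_eq_fixingSubgroup_index, ← hΓ]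
      have h1 : B.relIndex Γ = A.index := by
        change (B.subgroupOf Γ).index = A.index
        congr 1
        exact Subgroup.comap_map_eq_self_of_injective (Subgroup.subtype_injective Γ) A
      rw [← Subgroup.relIndex_mul_index hBΓ, h1]
      exact Nat.mul_le_mul_right _ hA2
    · intro σ hσ τ hτ P hP
      rw [hfix] at hσ hτ
      obtain ⟨σ', hσ', rfl⟩ := hσ
      obtain ⟨τ', hτ', rfl⟩ := hτ
      exact congrArg Subtype.val (hAc σ' hσ' τ' hτ' ⟨P, hP⟩)

end

end Pool.Agent.V5helper60.HW
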